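/-
MP_ed7341_co: critical exponent of GF(q)-representable matroids with no M(K_4)-minor.
Definitions used by the modules (see Spec.lean).
-/
import Mathlib

set_option autoImplicit false

namespace MPed7341

open Submodule Finset

section Defs

variable {F : Type} [Field F] {V : Type} [AddCommGroup V] [Module F V]

/-- Some element of `E` is, modulo `W`, a nonzero multiple of `v`. -/
def Hit (W : Submodule F V) (E : Finset V) (v : V) : Prop :=
  ∃ e ∈ E, ∃ c : F, c ≠ 0 ∧ e - c • v ∈ W

/-- `v1, v2, v3` are linearly independent modulo `W`. -/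
def Ind3 (W : Submodule F V) (v1 v2 v3 : V) : Prop :=
  ∀ a b c : F, a • v1 + b • v2 + c • v3 ∈ W → a = 0 ∧ b = 0 ∧ c = 0

/-- The vector configuration `E` has an `M(K_4)`-minor: modulo the span of some `C ⊆ E` there are
independent `v1, v2, v3` with `v1, v2, v3, v1 - v2, v2 - v3, v1 - v3` represented by `E`. -/
def HasK4 (F : Type) [Field F] {V : Type} [AddCommGroup V] [Module F V] (E : Finset V) : Prop :=
  ∃ (C : Finset V) (v1 v2 v3 : V), C ⊆ E ∧ Ind3 (span F (C : Set V)) v1 v2 v3 ∧
    Hit (span F (C : Set V)) E v1 ∧ Hit (span F (C : Set V)) E v2 ∧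
    Hit (span F (C : Set V)) E v3 ∧ Hit (span F (C : Set V)) E (v1 - v2) ∧
    Hit (span F (C : Set V)) E (v2 - v3) ∧ Hit (span F (C : Set V)) E (v1 - v3)

/-- simple: nonzero vectors, no two different ones proportional. -/
def Simple (F : Type) [Field F] {V : Type} [AddCommGroup V] [Module F V] (E : Finset V) : Prop :=
  (0 : V) ∉ E ∧ ∀ x ∈ E, ∀ y ∈ E, ∀ c : F, y = c • x → y = x

open Classical in
/-- number of different subspaces `W ⊔ ⟨v⟩`, `v ∈ B`. -/
noncomputable def ncl (W : Submodule F V) (B : Finset V) : ℕ :=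
  (B.image (fun v => W ⊔ span F {v})).card

open Classical in
/-- number of points (one-dimensional subspaces) of `E`. -/
noncomputable def npts (F : Type) [Field F] {V : Type} [AddCommGroup V] [Module F V]
    (E : Finset V) : ℕ :=
  ((E.filter (fun v => v ≠ 0)).image (fun v => span F {v})).card

/-- rank of a finite set of vectors. -/
noncomputable def rk (F : Type) [Field F] {V : Type} [AddCommGroup V] [Module F V]
    (E : Finset V) : ℕ :=
  Module.finrank F (span F (E : Set V))

end Defs

/-- numerical condition on the parameters `q, k, d`; `ρ = k q (q-1) / 2`. -/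
def Num (q k d : ℕ) : Prop :=
  1 ≤ d ∧ 1 ≤ k ∧
  (q - 1) * (k * (q * (q - 1) / 2)) * (d + 1) + 1 < 2 ^ (d + 1) ∧
  8 * d * (k * (q * (q - 1) / 2)) ^ 2 < q ^ k

section Mask

variable {ι K : Type} [DecidableEq ι] [Zero K]

/-- put `0` outside `J`. -/
def mask (J : Finset ι) (f : ι → K) : ι → K := fun i => if i ∈ J then f i else 0

end Mask

end MPed7341
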