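import Pool.Agent.Lib.MP_ed7341_co.Spec

section
/-
MP_ed7341_co: module DUAL, the matroid class is closed under duality.
-/
set_option autoImplicit false

namespace MPed7341

open Submodule Finset

namespace DualM

variable {F : Type} [Field F]

theorem exists_functional {ι M : Type} [AddCommGroup M] [Module F M] {v : ι → M}
    (hv : LinearIndependent F v) (g : ι → F) : ∃ f : M →ₗ[F] F, ∀ i, f (v i) = g i := by
  obtain ⟨f, hf⟩ := LinearMap.exists_extend ((Module.Basis.span hv).constr F g)
  refine ⟨f, fun i => ?_⟩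
  have h := LinearMap.congr_fun hf ((Module.Basis.span hv) i)
  rw [Module.Basis.constr_basis, LinearMap.comp_apply, Submodule.subtype_apply,
    Module.Basis.span_apply] at h
  exact h

/-- functionals vanishing on `W` with prescribed values on three vectors independent mod `W` -/
theorem exists_fun3 {M : Type} [AddCommGroup M] [Module F M] (W : Submodule F M) {v1 v2 v3 : M}
    (hv : Ind3 W v1 v2 v3) (g1 g2 g3 : F) : ∃ f : M →ₗ[F] F, (∀ x ∈ W, f x = 0) ∧
      f v1 = g1 ∧ f v2 = g2 ∧ f v3 = g3 := by
  have hli : LinearIndependent F (fun i : Fin 3 => W.mkQ (![v1, v2, v3] i)) := by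
    rw [Fintype.linearIndependent_iff]
    intro g hg
    rw [Fin.sum_univ_three] at hg
    simp only [← map_smul, ← map_add] at hg
    rw [Submodule.mkQ_apply, Submodule.Quotient.mk_eq_zero] at hg
    have h := hv (g 0) (g 1) (g 2) (by simpa using hg)
    intro i
    fin_cases i
    · exact h.1
    · exact h.2.1
    · exact h.2.2
  obtain ⟨f, hf⟩ := exists_functional hli ![g1, g2, g3]
  refine ⟨f.comp W.mkQ, ?_, ?_, ?_, ?_⟩
  · intro x hx
    rw [LinearMap.comp_apply, Submodule.mkQ_apply, (Submodule.Quotient.mk_eq_zero W).mpr hx,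
      map_zero]
  · simpa using hf 0
  · simpa using hf 1
  · simpa using hf 2

/-- coordinates of the six vectors of `K_4` -/
def M6 (F : Type) [Field F] : Fin 6 → Fin 3 → F :=
  ![![1, 0, 0], ![0, 1, 0], ![0, 0, 1], ![1, -1, 0], ![0, 1, -1], ![1, 0, -1]]

theorem M6_inj {i j : Fin 6} {c d : F} (hc : c ≠ 0) (hd : d ≠ 0)
    (h : ∀ l, c * M6 F i l = d * M6 F j l) : i = j := by
  have h0 := h 0
  have h1 := h 1
  have h2 := h 2
  fin_cases i <;> fin_cases j <;> simp [M6] at h0 h1 h2 ⊢ <;> first
    | exact hc h0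
    | exact hc h1
    | exact hc h2
    | exact hd h0
    | exact hd h1
    | exact hd h2
    | exact hd h0.symm
    | exact hd h1.symm
    | exact hd h2.symm

theorem M6_ne {i : Fin 6} {c : F} (hc : c ≠ 0) (h : ∀ l, c * M6 F i l = 0) : False := by
  have h0 := h 0
  have h1 := h 1
  have h2 := h 2
  fin_cases i <;> simp [M6] at h0 h1 h2 <;> first
    | exact hc h0
    | exact hc h1
    | exact hc h2

/-- the sign -/
def sgn {V : Type} [DecidableEq V] (F : Type) [Field F] (B : Finset V) (a : V) : F :=
  if a ∈ B then -1 else 1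

theorem sgn_ne {V : Type} [DecidableEq V] (B : Finset V) (a : V) : sgn F B a ≠ 0 := by
  unfold sgn; split_ifs <;> simp

theorem sgn_sq {V : Type} [DecidableEq V] (B : Finset V) (a : V) :
    sgn F B a * sgn F B a = 1 := by
  unfold sgn; split_ifs <;> simp

variable {V : Type} [AddCommGroup V] [Module F V] [DecidableEq V]

/-- the dual vectors -/
def vec (B T : Finset V) (co : V → V → F) (a : V) : {t // t ∈ T} → F :=
  fun t => if a ∈ B then co a t else if a = (t : V) then (1 : F) else 0

theorem fun_apply {T : Finset V} (f : ({t // t ∈ T} → F) →ₗ[F] F) (x : {t // t ∈ T} → F) :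
    f x = ∑ t : {t // t ∈ T}, x t * f (Pi.single t 1) := by
  conv_lhs => rw [← Finset.univ_sum_single x]
  rw [map_sum]
  refine Finset.sum_congr rfl fun t _ => ?_
  have : (Pi.single t (x t) : {t // t ∈ T} → F) = x t • Pi.single t 1 := by
    rw [← Pi.single_smul]
    simp
  rw [this, map_smul, smul_eq_mul]

theorem vec_T {B T : Finset V} (co : V → V → F) (hd : Disjoint B T) (t : {t // t ∈ T}) :
    vec B T co (t : V) = Pi.single t 1 := by
  have ht : (t : V) ∉ B := fun h => Finset.disjoint_left.mp hd h t.2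
  funext s
  unfold vec
  rw [if_neg ht]
  by_cases h : s = t
  · subst h; simp
  · rw [Pi.single_eq_of_ne h, if_neg]
    intro h'
    exact h (Subtype.ext h'.symm)

/-- relations coming from functionals -/
theorem rel {B T : Finset V} (co : V → V → F) (hd : Disjoint B T)
    (ht : ∀ t ∈ T, t = ∑ b ∈ B, co b t • b) (f : ({t // t ∈ T} → F) →ₗ[F] F) :
    ∑ a ∈ B ∪ T, (sgn F B a * f (vec B T co a)) • a = 0 := by
  rw [Finset.sum_union hd]
  have h1 : ∑ a ∈ T, (sgn F B a * f (vec B T co a)) • a =
      ∑ b ∈ B, (∑ t : {t // t ∈ T}, co b t * f (Pi.single t 1)) • b := by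
    have e : ∀ t ∈ T.attach, (sgn F B (t : V) * f (vec B T co (t : V))) • (t : V) =
        ∑ b ∈ B, (co b t * f (Pi.single t 1)) • b := by
      intro t _
      have ht' : (t : V) ∉ B := fun h => Finset.disjoint_left.mp hd h t.2
      rw [vec_T co hd t]
      unfold sgn
      rw [if_neg ht', one_mul]
      conv_lhs => rw [ht t t.2]
      rw [Finset.smul_sum]
      refine Finset.sum_congr rfl fun b _ => ?_
      rw [smul_smul, mul_comm]
    rw [← Finset.sum_attach, Finset.sum_congr rfl e, Finset.sum_comm]
    refine Finset.sum_congr rfl fun b _ => ?_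
    rw [← Finset.sum_smul]
    rfl
  have h2 : ∑ a ∈ B, (sgn F B a * f (vec B T co a)) • a =
      - ∑ b ∈ B, (∑ t : {t // t ∈ T}, co b t * f (Pi.single t 1)) • b := by
    rw [← Finset.sum_neg_distrib]
    refine Finset.sum_congr rfl fun b hb => ?_
    rw [fun_apply f]
    unfold sgn vec
    simp only [if_pos hb]
    rw [neg_one_mul, neg_smul]
  rw [h1, h2]
  simp

/-- every relation comes from a functional -/
theorem conv {B T : Finset V} (co : V → V → F) (hd : Disjoint B T)
    (hB : LinearIndepOn F id (B : Set V))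
    (ht : ∀ t ∈ T, t = ∑ b ∈ B, co b t • b) (h : V → F)
    (hr : ∑ a ∈ B ∪ T, h a • a = 0) :
    ∃ f : ({t // t ∈ T} → F) →ₗ[F] F, ∀ a ∈ B ∪ T, sgn F B a * f (vec B T co a) = h a := by
  let f : ({t // t ∈ T} → F) →ₗ[F] F := ∑ t : {t // t ∈ T}, h t • LinearMap.proj t
  have hf : ∀ x, f x = ∑ t : {t // t ∈ T}, h t * x t := by
    intro x
    simp [f, LinearMap.sum_apply]
  have hfs : ∀ t : {t // t ∈ T}, f (Pi.single t 1) = h t := by
    intro t
    rw [hf, Finset.sum_eq_single t]
    · simp
    · intro s _ hs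
      rw [Pi.single_eq_of_ne hs, mul_zero]
    · simp
  have hT : ∀ a ∈ T, sgn F B a * f (vec B T co a) = h a := by
    intro a ha
    have ha' : a ∉ B := fun h' => Finset.disjoint_left.mp hd h' ha
    have := vec_T co hd ⟨a, ha⟩
    simp only at this
    rw [this, hfs]
    unfold sgn
    rw [if_neg ha', one_mul]
  refine ⟨f, ?_⟩
  have hrel := rel co hd ht f
  have hdiff : ∑ b ∈ B, (sgn F B b * f (vec B T co b) - h b) • b = 0 := by
    rw [Finset.sum_union hd] at hrel hr
    have e : ∑ a ∈ T, (sgn F B a * f (vec B T co a)) • a = ∑ a ∈ T, h a • a :=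
      Finset.sum_congr rfl fun a ha => by rw [hT a ha]
    rw [e] at hrel
    simp only [sub_smul, Finset.sum_sub_distrib]
    rw [← sub_eq_zero] at hrel
    have : ∑ a ∈ B, (sgn F B a * f (vec B T co a)) • a = ∑ b ∈ B, h b • b := by
      have h1 : ∑ a ∈ B, (sgn F B a * f (vec B T co a)) • a = - ∑ a ∈ T, h a • a := by
        rw [sub_zero] at hrel
        exact eq_neg_of_add_eq_zero_left hrel
      have h2 : ∑ b ∈ B, h b • b = - ∑ a ∈ T, h a • a := eq_neg_of_add_eq_zero_left hr
      rw [h1, h2]
    rw [this, sub_self]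
  have hBz := (linearIndepOn_finset_iff.mp hB) (fun b => sgn F B b * f (vec B T co b) - h b)
    (by simpa using hdiff)
  intro a ha
  rcases Finset.mem_union.mp ha with ha | ha
  · exact sub_eq_zero.mp (hBz a ha)
  · exact hT a ha

end DualM

open DualM

theorem specDual : SpecDual := by
  classical
  intro F _ V _ _ B T co hd hB ht hK
  have hvec : (B ∪ T).image (fun a => fun t : {t // t ∈ T} =>
      if a ∈ B then co a t else if a = (t : V) then (1 : F) else 0) =
      (B ∪ T).image (vec B T co) := by
    apply Finset.image_congr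
    intro a _
    funext t
    unfold vec
    congr
  rw [hvec] at hK
  obtain ⟨C, v1, v2, v3, hC, hind, hh1, hh2, hh3, hh12, hh23, hh13⟩ := hK
  set W := span F (C : Set ({t // t ∈ T} → F)) with hW
  -- the labels
  have lab : ∀ v, Hit W ((B ∪ T).image (vec B T co)) v → ∃ a ∈ B ∪ T, ∃ c : F, c ≠ 0 ∧
      vec B T co a - c • v ∈ W := by
    rintro v ⟨e, he, c, hc, hec⟩
    obtain ⟨a, ha, rfl⟩ := Finset.mem_image.mp he
    exact ⟨a, ha, c, hc, hec⟩
  obtain ⟨k0, hk0, c0, hc0, e0⟩ := lab _ hh1
  obtain ⟨k1, hk1, c1, hc1, e1⟩ := lab _ hh2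
  obtain ⟨k2, hk2, c2, hc2, e2⟩ := lab _ hh3
  obtain ⟨k3, hk3, c3, hc3, e3⟩ := lab _ hh12
  obtain ⟨k4, hk4, c4, hc4, e4⟩ := lab _ hh23
  obtain ⟨k5, hk5, c5, hc5, e5⟩ := lab _ hh13
  let k : Fin 6 → V := ![k0, k1, k2, k3, k4, k5]
  let c : Fin 6 → F := ![c0, c1, c2, c3, c4, c5]
  have hk : ∀ i, k i ∈ B ∪ T := by
    intro i; fin_cases i <;> assumption
  have hc : ∀ i, c i ≠ 0 := by
    intro i; fin_cases i <;> assumption
  have hval : ∀ (f : ({t // t ∈ T} → F) →ₗ[F] F), (∀ x ∈ W, f x = 0) → ∀ i,
      f (vec B T co (k i)) = c i * (M6 F i 0 * f v1 + M6 F i 1 * f v2 + M6 F i 2 * f v3) := by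
    intro f hf i
    fin_cases i
    · have := hf _ e0
      simp [k, c, M6] at this ⊢
      linear_combination this
    · have := hf _ e1
      simp [k, c, M6] at this ⊢
      linear_combination this
    · have := hf _ e2
      simp [k, c, M6] at this ⊢
      linear_combination this
    · have := hf _ e3
      simp [k, c, M6] at this ⊢
      linear_combination this
    · have := hf _ e4
      simp [k, c, M6] at this ⊢
      linear_combination this
    · have := hf _ e5
      simp [k, c, M6] at this ⊢
      linear_combination this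
  obtain ⟨f1, hf1, hf11, hf12, hf13⟩ := exists_fun3 W hind 1 0 0
  obtain ⟨f2, hf2, hf21, hf22, hf23⟩ := exists_fun3 W hind 0 1 0
  obtain ⟨f3, hf3, hf31, hf32, hf33⟩ := exists_fun3 W hind 0 0 1
  have v1' : ∀ i, f1 (vec B T co (k i)) = c i * M6 F i 0 := by
    intro i; rw [hval f1 hf1, hf11, hf12, hf13]; ring
  have v2' : ∀ i, f2 (vec B T co (k i)) = c i * M6 F i 1 := by
    intro i; rw [hval f2 hf2, hf21, hf22, hf23]; ring
  have v3' : ∀ i, f3 (vec B T co (k i)) = c i * M6 F i 2 := by
    intro i; rw [hval f3 hf3, hf31, hf32, hf33]; ring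
  have kinj : Function.Injective k := by
    intro i j hij
    apply M6_inj (hc i) (hc j)
    intro l
    fin_cases l
    · show c i * M6 F i 0 = c j * M6 F j 0
      rw [← v1', ← v1', hij]
    · show c i * M6 F i 1 = c j * M6 F j 1
      rw [← v2', ← v2', hij]
    · show c i * M6 F i 2 = c j * M6 F j 2
      rw [← v3', ← v3', hij]
  -- the contracted labels
  let Z := (B ∪ T).filter (fun a => vec B T co a ∈ C)
  have hZf : ∀ f : ({t // t ∈ T} → F) →ₗ[F] F, (∀ x ∈ W, f x = 0) → ∀ a ∈ Z,
      f (vec B T co a) = 0 := by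
    intro f hf a ha
    exact hf _ (subset_span (Finset.mem_coe.mpr (Finset.mem_filter.mp ha).2))
  have kZ : ∀ i, k i ∉ Z := by
    intro i hi
    apply M6_ne (F := F) (i := i) (hc i)
    intro l
    fin_cases l
    · show c i * M6 F i 0 = 0
      rw [← v1', hZf f1 hf1 _ hi]
    · show c i * M6 F i 1 = 0
      rw [← v2', hZf f2 hf2 _ hi]
    · show c i * M6 F i 2 = 0
      rw [← v3', hZf f3 hf3 _ hi]
  let Kf : Finset V := Finset.univ.image k
  let Y := ((B ∪ T) \ Z) \ Kf
  have hYS : Y ⊆ B ∪ T := Finset.sdiff_subset.trans Finset.sdiff_subset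
  have kY : ∀ i, k i ∉ Y := by
    intro i hi
    exact (Finset.mem_sdiff.mp hi).2 (Finset.mem_image_of_mem k (Finset.mem_univ i))
  have hKS : Kf ⊆ B ∪ T := by
    intro x hx
    obtain ⟨i, -, rfl⟩ := Finset.mem_image.mp hx
    exact hk i
  -- relations modulo the span of `Y`
  have relY : ∀ f : ({t // t ∈ T} → F) →ₗ[F] F, (∀ x ∈ W, f x = 0) →
      ∑ i, (sgn F B (k i) * f (vec B T co (k i))) • k i ∈ span F (Y : Set V) := by
    intro f hf
    have h1 := rel co hd ht f
    rw [← Finset.sum_sdiff hKS] at h1
    have h2 : ∑ x ∈ Kf, (sgn F B x * f (vec B T co x)) • x =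
        ∑ i, (sgn F B (k i) * f (vec B T co (k i))) • k i :=
      Finset.sum_image (fun i _ j _ hij => kinj hij)
    rw [h2] at h1
    have h3 : ∑ x ∈ (B ∪ T) \ Kf, (sgn F B x * f (vec B T co x)) • x ∈ span F (Y : Set V) := by
      apply Submodule.sum_mem
      intro x hx
      by_cases hxZ : x ∈ Z
      · rw [hZf f hf x hxZ, mul_zero, zero_smul]
        exact Submodule.zero_mem _
      · apply Submodule.smul_mem
        apply subset_span
        rw [Finset.mem_coe]
        simp only [Y, Finset.mem_sdiff]
        exact ⟨⟨(Finset.mem_sdiff.mp hx).1, hxZ⟩, (Finset.mem_sdiff.mp hx).2⟩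
    have h4 := eq_neg_of_add_eq_zero_right h1
    rw [h4]
    exact Submodule.neg_mem _ h3
  have relU : ∀ (f : ({t // t ∈ T} → F) →ₗ[F] F) (l : Fin 3), (∀ x ∈ W, f x = 0) →
      (∀ i, f (vec B T co (k i)) = c i * M6 F i l) →
      ∑ i, M6 F i l • ((sgn F B (k i) * c i) • k i) ∈ span F (Y : Set V) := by
    intro f l hf hfi
    have := relY f hf
    have e : ∑ i, (sgn F B (k i) * f (vec B T co (k i))) • k i =
        ∑ i, M6 F i l • ((sgn F B (k i) * c i) • k i) := by
      refine Finset.sum_congr rfl fun i _ => ?_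
      rw [hfi, smul_smul]
      congr 1
      ring
    rwa [e] at this
  have r1 := relU f1 0 hf1 v1'
  have r2 := relU f2 1 hf2 v2'
  have r3 := relU f3 2 hf3 v3'
  let U : Fin 6 → V := fun i => (sgn F B (k i) * c i) • k i
  have R1 : U 0 + U 3 + U 5 ∈ span F (Y : Set V) := by
    have : ∑ i, M6 F i 0 • U i = U 0 + U 3 + U 5 := by
      rw [Fin.sum_univ_six]; simp [M6]
    rw [← this]; exact r1
  have R2 : U 1 - U 3 + U 4 ∈ span F (Y : Set V) := by
    have : ∑ i, M6 F i 1 • U i = U 1 - U 3 + U 4 := by
      rw [Fin.sum_univ_six]; simp [M6]; abel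
    rw [← this]; exact r2
  have R3 : U 2 - U 4 - U 5 ∈ span F (Y : Set V) := by
    have : ∑ i, M6 F i 2 • U i = U 2 - U 4 - U 5 := by
      rw [Fin.sum_univ_six]; simp [M6]; abel
    rw [← this]; exact r3
  have hit : ∀ i w, (U i - w ∈ span F (Y : Set V) ∨ U i + w ∈ span F (Y : Set V)) →
      Hit (span F (Y : Set V)) (B ∪ T) w := by
    intro i w hw
    have hne : sgn F B (k i) * c i ≠ 0 := mul_ne_zero (sgn_ne B (k i)) (hc i)
    have hki : k i = (sgn F B (k i) * c i)⁻¹ • U i := by
      simp only [U]
      rw [smul_smul, inv_mul_cancel₀ hne, one_smul]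
    rcases hw with hw | hw
    · refine ⟨k i, hk i, (sgn F B (k i) * c i)⁻¹, inv_ne_zero hne, ?_⟩
      have : k i - (sgn F B (k i) * c i)⁻¹ • w = (sgn F B (k i) * c i)⁻¹ • (U i - w) := by
        rw [smul_sub, ← hki]
      rw [this]
      exact Submodule.smul_mem _ _ hw
    · refine ⟨k i, hk i, -(sgn F B (k i) * c i)⁻¹, neg_ne_zero.mpr (inv_ne_zero hne), ?_⟩
      have : k i - (-(sgn F B (k i) * c i)⁻¹) • w = (sgn F B (k i) * c i)⁻¹ • (U i + w) := by
        rw [smul_add, ← hki, neg_smul, sub_neg_eq_add]
      rw [this]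
      exact Submodule.smul_mem _ _ hw
  refine ⟨Y, U 4, -U 5, U 3, hYS, ?_, ?_, ?_, ?_, ?_, ?_, ?_⟩
  · -- independence
    intro a b d habd
    obtain ⟨γ, -, hγ⟩ := Submodule.mem_span_finset.mp habd
    let w : Fin 6 → F := ![0, 0, 0, d * (sgn F B (k 3) * c 3), a * (sgn F B (k 4) * c 4),
      -(b * (sgn F B (k 5) * c 5))]
    let h : V → F := fun x => (∑ i, if x = k i then w i else 0) - (if x ∈ Y then γ x else 0)
    have hhk : ∀ i, h (k i) = w i := by
      intro i
      simp only [h]
      rw [if_neg (kY i), sub_zero, Finset.sum_eq_single i]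
      · simp
      · intro j _ hj
        rw [if_neg (fun e => hj (kinj e).symm)]
      · simp
    have hhZ : ∀ x ∈ Z, h x = 0 := by
      intro x hx
      simp only [h]
      have hxY : x ∉ Y := by
        intro hxY
        exact (Finset.mem_sdiff.mp (Finset.mem_sdiff.mp hxY).1).2 hx
      rw [if_neg hxY, sub_zero]
      apply Finset.sum_eq_zero
      intro i _
      rw [if_neg]
      rintro rfl
      exact kZ i hx
    have hrel : ∑ x ∈ B ∪ T, h x • x = 0 := by
      simp only [h, sub_smul, Finset.sum_sub_distrib, Finset.sum_smul]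
      rw [Finset.sum_comm]
      have s1 : ∀ i : Fin 6, ∑ x ∈ B ∪ T, (if x = k i then w i else 0) • x = w i • k i := by
        intro i
        rw [Finset.sum_eq_single (k i)]
        · simp
        · intro x _ hx
          rw [if_neg hx, zero_smul]
        · intro h'
          exact absurd (hk i) h'
      rw [Finset.sum_congr rfl (fun i _ => s1 i)]
      have s2 : ∑ x ∈ B ∪ T, (if x ∈ Y then γ x else 0) • x = ∑ x ∈ Y, γ x • x := by
        rw [← Finset.sum_subset hYS (f := fun x => (if x ∈ Y then γ x else 0) • x)]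
        · exact Finset.sum_congr rfl fun x hx => by rw [if_pos hx]
        · intro x _ hx
          rw [if_neg hx, zero_smul]
      rw [s2, hγ, Fin.sum_univ_six]
      have w0 : w 0 = 0 := rfl
      have w1 : w 1 = 0 := rfl
      have w2 : w 2 = 0 := rfl
      have w3 : w 3 = d * (sgn F B (k 3) * c 3) := rfl
      have w4 : w 4 = a * (sgn F B (k 4) * c 4) := rfl
      have w5 : w 5 = -(b * (sgn F B (k 5) * c 5)) := rfl
      rw [w0, w1, w2, w3, w4, w5]
      simp only [U, zero_smul, smul_neg, neg_smul, mul_smul]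
      abel
    obtain ⟨f, hf⟩ := conv co hd hB ht h hrel
    have hfW : ∀ x ∈ W, f x = 0 := by
      intro x hx
      rw [hW] at hx
      induction hx using Submodule.span_induction with
      | mem x hx =>
        obtain ⟨y, hy, rfl⟩ := Finset.mem_image.mp (hC (Finset.mem_coe.mp hx))
        have hyZ : y ∈ Z := Finset.mem_filter.mpr ⟨hy, Finset.mem_coe.mp hx⟩
        have := hf y hy
        rw [hhZ y hyZ] at this
        exact (mul_eq_zero.mp this).resolve_left (sgn_ne B y)
      | zero => exact map_zero f
      | add x y _ _ hx hy => rw [map_add, hx, hy, add_zero]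
      | smul a x _ hx => rw [map_smul, hx, smul_zero]
    have fk : ∀ i, f (vec B T co (k i)) = sgn F B (k i) * w i := by
      intro i
      have := hf (k i) (hk i)
      rw [hhk] at this
      rw [← this, ← mul_assoc, sgn_sq, one_mul]
    have hv := hval f hfW
    have z1 : f v1 = 0 := by
      have h1 := hv 0
      rw [fk 0] at h1
      simp [M6, w] at h1
      exact h1.resolve_left (hc 0)
    have z2 : f v2 = 0 := by
      have h1 := hv 1
      rw [fk 1] at h1
      simp [M6, w] at h1
      exact h1.resolve_left (hc 1)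
    have z3 : f v3 = 0 := by
      have h1 := hv 2
      rw [fk 2] at h1
      simp [M6, w] at h1
      exact h1.resolve_left (hc 2)
    have wz : ∀ i, w i = 0 := by
      intro i
      have h1 := hv i
      rw [fk i, z1, z2, z3] at h1
      simp only [mul_zero, add_zero] at h1
      exact (mul_eq_zero.mp h1).resolve_left (sgn_ne B (k i))
    have hne : ∀ i, sgn F B (k i) * c i ≠ 0 := fun i => mul_ne_zero (sgn_ne B (k i)) (hc i)
    have y3 : d * (sgn F B (k 3) * c 3) = 0 := wz 3
    have y4 : a * (sgn F B (k 4) * c 4) = 0 := wz 4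
    have y5 : -(b * (sgn F B (k 5) * c 5)) = 0 := wz 5
    exact ⟨(mul_eq_zero.mp y4).resolve_right (hne 4),
      (mul_eq_zero.mp (neg_eq_zero.mp y5)).resolve_right (hne 5),
      (mul_eq_zero.mp y3).resolve_right (hne 3)⟩
  · exact hit 4 _ (Or.inl (by rw [sub_self]; exact Submodule.zero_mem _))
  · exact hit 5 _ (Or.inr (by rw [add_neg_cancel]; exact Submodule.zero_mem _))
  · exact hit 3 _ (Or.inl (by rw [sub_self]; exact Submodule.zero_mem _))
  · -- p1 - p2
    refine hit 2 _ (Or.inl ?_)
    have : U 2 - (U 4 - -U 5) = U 2 - U 4 - U 5 := by abel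
    rw [this]; exact R3
  · -- p2 - p3
    refine hit 0 _ (Or.inl ?_)
    have : U 0 - (-U 5 - U 3) = U 0 + U 3 + U 5 := by abel
    rw [this]; exact R1
  · -- p1 - p3
    refine hit 1 _ (Or.inr ?_)
    have : U 1 + (U 4 - U 3) = U 1 - U 3 + U 4 := by abel
    rw [this]; exact R2

end MPed7341
end

section
/-
MP_ed7341_co: module COCIR, a small cocircuit.
-/
set_option autoImplicit false

namespace MPed7341

open Submodule Finset

namespace CocM

variable {F : Type} [Field F] {V : Type} [AddCommGroup V] [Module F V]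

theorem HasK4.mono {E E' : Finset V} (h : E ⊆ E') (hE : HasK4 F E) : HasK4 F E' := by
  obtain ⟨C, v1, v2, v3, hC, hi, h1, h2, h3, h4, h5, h6⟩ := hE
  have hm : ∀ v, Hit (span F (C : Set V)) E v → Hit (span F (C : Set V)) E' v := by
    rintro v ⟨e, he, c, hc, hv⟩
    exact ⟨e, h he, c, hc, hv⟩
  exact ⟨C, v1, v2, v3, hC.trans h, hi, hm _ h1, hm _ h2, hm _ h3, hm _ h4, hm _ h5, hm _ h6⟩

open Classical in
theorem npts_ge (E : Finset V) (S : Finset (Submodule F V))
    (h : ∀ P ∈ S, ∃ x ∈ E, x ≠ 0 ∧ span F {x} = P) : S.card ≤ npts F E := by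
  unfold npts
  apply Finset.card_le_card
  intro P hP
  obtain ⟨x, hx, hx0, rfl⟩ := h P hP
  exact Finset.mem_image.mpr ⟨x, Finset.mem_filter.mpr ⟨hx, hx0⟩, rfl⟩

open Classical in
theorem count [Fintype F] (B T : Finset V) (co : V → V → F)
    (T' : Finset {t // t ∈ T}) :
    (univ.image (fun i : {b // b ∈ B} × Fˣ =>
      mask T' (fun t : {t // t ∈ T} => (i.2 : F) * co i.1 t))).card ≤
      (Fintype.card F - 1) * npts F ((B ∪ T'.map (Function.Embedding.subtype _)).image
        (fun a => fun t : {t // t ∈ T'.map (Function.Embedding.subtype _)} =>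
          if a ∈ B then co a t else if a = (t : V) then (1 : F) else 0)) + 1 := by
  set T'' : Finset V := T'.map (Function.Embedding.subtype _) with hT''
  have hsub : ∀ t : {t // t ∈ T''}, (t : V) ∈ T := by
    rintro ⟨t, ht⟩
    obtain ⟨s, _, rfl⟩ := Finset.mem_map.mp ht
    exact s.2
  have hmem : ∀ t : {t // t ∈ T''}, (⟨t, hsub t⟩ : {t // t ∈ T}) ∈ T' := by
    rintro ⟨t, ht⟩
    obtain ⟨s, hs, hs'⟩ := Finset.mem_map.mp ht
    have : (⟨t, hsub ⟨t, ht⟩⟩ : {t // t ∈ T}) = s := Subtype.ext hs'.symm
    rw [this]; exact hs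
  let res : ({t // t ∈ T} → F) → ({t // t ∈ T''} → F) := fun v t => v ⟨t, hsub t⟩
  set Im := univ.image (fun i : {b // b ∈ B} × Fˣ =>
      mask T' (fun t : {t // t ∈ T} => (i.2 : F) * co i.1 t)) with hIm
  have hres : ∀ v ∈ Im, ∀ v' ∈ Im, ∀ c : F, res v' = c • res v → v' = c • v := by
    intro v hv v' hv' c hc
    obtain ⟨i, -, rfl⟩ := Finset.mem_image.mp hv
    obtain ⟨j, -, rfl⟩ := Finset.mem_image.mp hv'
    funext t
    by_cases ht : t ∈ T'
    · have ht'' : (t : V) ∈ T'' := Finset.mem_map.mpr ⟨t, ht, rfl⟩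
      exact congrFun hc ⟨(t : V), ht''⟩
    · simp [mask, ht]
  have h0 : Im.card ≤ (Im.filter (fun v => v ≠ 0)).card + 1 := by
    have : Im ⊆ insert 0 (Im.filter (fun v => v ≠ 0)) := by
      intro v hv
      by_cases h : v = 0
      · rw [h]; exact Finset.mem_insert_self _ _
      · exact Finset.mem_insert_of_mem (Finset.mem_filter.mpr ⟨hv, h⟩)
    exact (Finset.card_le_card this).trans (Finset.card_insert_le _ _)
  have h1 : (Im.filter (fun v => v ≠ 0)).card ≤ (Fintype.card F - 1) *
      ((Im.filter (fun v => v ≠ 0)).image (fun v => span F {res v})).card := by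
    apply Finset.card_le_mul_card_image
    intro P hP
    obtain ⟨v, hv, rfl⟩ := Finset.mem_image.mp hP
    have hv' := Finset.mem_filter.mp hv
    have hsub2 : (Im.filter (fun v => v ≠ 0)).filter (fun w => span F {res w} = span F {res v}) ⊆
        (univ.filter (fun c : F => c ≠ 0)).image (fun c => c • v) := by
      intro w hw
      obtain ⟨hw1, hw2⟩ := Finset.mem_filter.mp hw
      obtain ⟨hw3, hw4⟩ := Finset.mem_filter.mp hw1
      have hm : res w ∈ span F {res v} := by
        rw [← hw2]; exact mem_span_singleton_self _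
      obtain ⟨c, hc⟩ := mem_span_singleton.mp hm
      have hwc : w = c • v := hres v hv'.1 w hw3 c hc.symm
      have hc0 : c ≠ 0 := by
        rintro rfl
        rw [zero_smul] at hwc
        exact hw4 hwc
      exact Finset.mem_image.mpr ⟨c, Finset.mem_filter.mpr ⟨Finset.mem_univ _, hc0⟩, hwc.symm⟩
    refine (Finset.card_le_card hsub2).trans (Finset.card_image_le.trans ?_)
    rw [Finset.filter_ne' univ (0 : F), Finset.card_erase_of_mem (Finset.mem_univ _),
      Finset.card_univ]
  have h2 : ((Im.filter (fun v => v ≠ 0)).image (fun v => span F {res v})).card ≤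
      npts F ((B ∪ T'').image
        (fun a => fun t : {t // t ∈ T''} =>
          if a ∈ B then co a t else if a = (t : V) then (1 : F) else 0)) := by
    apply npts_ge
    intro P hP
    obtain ⟨v, hv, rfl⟩ := Finset.mem_image.mp hP
    obtain ⟨hv1, hv2⟩ := Finset.mem_filter.mp hv
    obtain ⟨i, -, rfl⟩ := Finset.mem_image.mp hv1
    let x : {t // t ∈ T''} → F := fun t => co i.1 t
    have hx : res (mask T' (fun t : {t // t ∈ T} => (i.2 : F) * co i.1 t)) = (i.2 : F) • x := by
      funext t
      simp only [res, mask, hmem t, if_true, Pi.smul_apply, smul_eq_mul, x]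
    have hx0 : x ≠ 0 := by
      intro hx0
      apply hv2
      funext t
      by_cases ht : t ∈ T'
      · have ht'' : (t : V) ∈ T'' := Finset.mem_map.mpr ⟨t, ht, rfl⟩
        have := congrFun hx0 ⟨(t : V), ht''⟩
        simp only [x, Pi.zero_apply] at this
        simp only [mask, ht, if_true, Pi.zero_apply]
        rw [this, mul_zero]
      · simp [mask, ht]
    have hxm : x ∈ (B ∪ T'').image (fun a => fun t : {t // t ∈ T''} =>
          if a ∈ B then co a t else if a = (t : V) then (1 : F) else 0) := by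
      refine Finset.mem_image.mpr ⟨i.1, Finset.mem_union_left _ i.1.2, ?_⟩
      funext t
      simp [x, i.1.2]
    refine ⟨x, hxm, hx0, ?_⟩
    · show span F {x} = span F {res (mask T' (fun t : {t // t ∈ T} => (i.2 : F) * co i.1 t))}
      rw [hx]
      exact (span_singleton_smul_eq (Units.isUnit i.2) x).symm
  calc Im.card ≤ (Im.filter (fun v => v ≠ 0)).card + 1 := h0
    _ ≤ _ := by
      have := Nat.mul_le_mul_left (Fintype.card F - 1) h2
      omega

/-- arithmetic at the end -/
theorem arith (q ρ d r s T : ℕ) (hq : 2 ≤ q) (hρ : 1 ≤ ρ) (hd : 1 ≤ d) (hr : 8 * d * ρ ≤ r)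
    (hs : s = (r - 2) / (2 * ρ) + 1) (hT : T + r ≤ ρ * r + 1)
    (h : s * (r * (q - 1)) * (8 * d * ρ ^ 2 - 1) ≤ 2 * d * (r * (q - 1)) * T +
      s * ((q - 1) * ρ * (s - 1) + 1) * (8 * d * ρ ^ 2 - 1)) : False := by
  obtain ⟨p, rfl⟩ : ∃ p, q = p + 2 := ⟨q - 2, by omega⟩
  have e1 : p + 2 - 1 = p + 1 := by omega
  rw [e1] at h
  have h9 : 8 * ρ ≤ 8 * d * ρ := by
    calc 8 * ρ = 8 * 1 * ρ := by ring
      _ ≤ 8 * d * ρ := by gcongr
  have hr8 : 8 ≤ r := by omega
  obtain ⟨r', rfl⟩ : ∃ r', r = r' + 2 := ⟨r - 2, by omega⟩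
  have e2 : r' + 2 - 2 = r' := by omega
  rw [e2] at hs
  have hs1 : s - 1 = r' / (2 * ρ) := by rw [hs, Nat.add_sub_cancel]
  have hdiv : 2 * ρ * (r' / (2 * ρ)) ≤ r' := Nat.mul_div_le r' (2 * ρ)
  have hdiv2 : r' < 2 * ρ * (r' / (2 * ρ)) + 2 * ρ := by
    have := Nat.lt_mul_div_succ r' (show 0 < 2 * ρ by omega)
    rwa [Nat.mul_add, Nat.mul_one] at this
  rw [hs1] at h
  generalize r' / (2 * ρ) = t at *
  subst hs
  have hG : 1 ≤ 8 * d * ρ ^ 2 := by
    calc 1 ≤ 8 * 1 * 1 ^ 2 := by norm_num
      _ ≤ 8 * d * ρ ^ 2 := by gcongr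
  obtain ⟨G, hG'⟩ : ∃ G, 8 * d * ρ ^ 2 = G + 1 := ⟨8 * d * ρ ^ 2 - 1, by omega⟩
  rw [hG'] at h hG
  have e3 : G + 1 - 1 = G := by omega
  rw [e3] at h
  clear hs1 e1 e2 e3 hG hr8
  -- 2 c ≤ R
  have hc : 2 * ((p + 1) * ρ * t + 1) ≤ (r' + 2) * (p + 1) := by
    calc 2 * ((p + 1) * ρ * t + 1) = (p + 1) * (2 * ρ * t) + 2 * 1 := by ring
      _ ≤ (p + 1) * r' + 2 * (p + 1) := by gcongr; omega
      _ = (r' + 2) * (p + 1) := by ring
  have h1 : (t + 1) * G * ((r' + 2) * (p + 1)) ≤ 4 * d * T * ((r' + 2) * (p + 1)) := by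
    have := Nat.mul_le_mul_left ((t + 1) * G) hc
    linarith
  have h2 : (t + 1) * G ≤ 4 * d * T := Nat.le_of_mul_le_mul_right h1 (by positivity)
  have h3 : r' + 1 ≤ 2 * ρ * (t + 1) := by linarith
  have h4 : (r' + 1) * G ≤ 8 * d * ρ * T := by
    calc (r' + 1) * G ≤ 2 * ρ * (t + 1) * G := Nat.mul_le_mul_right G h3
      _ = 2 * ρ * ((t + 1) * G) := by ring
      _ ≤ 2 * ρ * (4 * d * T) := Nat.mul_le_mul_left _ h2
      _ = 8 * d * ρ * T := by ring
  have h5 : 8 * d * ρ * T + 8 * d * ρ * (r' + 2) ≤ 8 * d * ρ * (ρ * (r' + 2) + 1) := by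
    have := Nat.mul_le_mul_left (8 * d * ρ) hT
    linarith
  have h6 : 8 * d * ρ * (ρ * (r' + 2) + 1) = (G + 1) * (r' + 2) + 8 * d * ρ := by
    rw [← hG']; ring
  have h7 : 8 * d * ρ * (r' + 2) ≤ G + (r' + 2) + 8 * d * ρ := by linarith
  have h8 : G + 1 ≤ ρ * (r' + 2) := by
    rw [← hG']
    calc 8 * d * ρ ^ 2 = ρ * (8 * d * ρ) := by ring
      _ ≤ ρ * (r' + 2) := Nat.mul_le_mul_left _ hr
  have h10 : 8 * ρ * (r' + 2) ≤ 8 * d * ρ * (r' + 2) := Nat.mul_le_mul_right _ h9
  have h11 : 1 * (r' + 2) ≤ ρ * (r' + 2) := Nat.mul_le_mul_right _ hρ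
  clear h h1 h2 h3 h4 h5 h6 hc hT hdiv hdiv2 hG' h9 hd
  linarith

end CocM

open CocM DualM in
theorem specCocir (hPack : SpecPack) (hDual : SpecDual) : SpecCocir := by
  classical
  intro F _ _ V _ _ A ρ d hS hK hne hd hρ hnum hcard hmin
  by_contra hcon
  push Not at hcon
  set q := Fintype.card F with hq
  have hq2 : 2 ≤ q := Fintype.one_lt_card
  -- a basis
  obtain ⟨b, hbA, hbspan, hbli⟩ := exists_linearIndependent F (A : Set V)
  let B : Finset V := A.filter (fun x => x ∈ b)
  have hBb : (B : Set V) = b := by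
    ext x
    simp only [B, Finset.coe_filter, Set.mem_ofPred_eq]
    exact ⟨fun h => h.2, fun h => ⟨hbA h, h⟩⟩
  have hBA : B ⊆ A := Finset.filter_subset _ _
  have hBspan : span F (B : Set V) = span F (A : Set V) := by rw [hBb, hbspan]
  have hBli : LinearIndepOn F id (B : Set V) := by
    rw [hBb]; exact hbli
  have hr : rk F A = B.card := by
    unfold rk
    rw [← hBspan]
    exact finrank_span_finset_eq_card hBli
  let T := A \ B
  have hBT : Disjoint B T := Finset.disjoint_sdiff
  have hTcard : T.card + B.card = A.card := Finset.card_sdiff_add_card_eq_card hBA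
  have hco : ∀ t : V, ∃ c : V → F, t ∈ T → t = ∑ x ∈ B, c x • x := by
    intro t
    by_cases ht : t ∈ T
    · have : t ∈ span F (B : Set V) := by
        rw [hBspan]
        exact subset_span (Finset.mem_coe.mpr (Finset.mem_sdiff.mp ht).1)
      obtain ⟨c, -, hc⟩ := Submodule.mem_span_finset.mp this
      exact ⟨c, fun _ => hc.symm⟩
    · exact ⟨0, fun h => absurd h ht⟩
  choose co' hco' using hco
  let co : V → V → F := fun x t => co' t x
  have hcoT : ∀ t ∈ T, t = ∑ x ∈ B, co x t • x := fun t ht => hco' t ht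
  -- functionals with given values on `B`
  have hfun : ∀ g : V → F, ∃ f : V →ₗ[F] F, ∀ x ∈ B, f x = g x := by
    intro g
    have hli : LinearIndependent F (fun x : {x // x ∈ B} => (x : V)) := by
      have := hBli
      exact this
    obtain ⟨f, hf⟩ := exists_functional hli (fun x => g x)
    exact ⟨f, fun x hx => hf ⟨x, hx⟩⟩
  have hBne : ∀ x ∈ B, x ≠ 0 := by
    intro x hx h0
    exact hS.1 (h0 ▸ hBA hx)
  -- lower bound for `A.card`
  have hApos : 8 * d * ρ ^ 2 < A.card := by
    obtain ⟨a, ha⟩ := hne
    have ha0 : a ≠ 0 := fun h => hS.1 (h ▸ ha)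
    obtain ⟨f, hf⟩ := exists_functional (F := F) (v := fun _ : Unit => a)
      (by
        rw [linearIndependent_unique_iff]
        exact ha0) (fun _ => 1)
    have h1 := hcon f ⟨a, ha, by rw [hf ()]; exact one_ne_zero⟩
    exact lt_of_lt_of_le h1 (Finset.card_filter_le _ _)
  rw [hr] at hcard
  have hr8 : 8 * d * ρ ≤ B.card := by
    have h1 : 8 * d * ρ ^ 2 ≤ ρ * B.card := by omega
    have h2 : ρ * (8 * d * ρ) ≤ ρ * B.card := by
      calc ρ * (8 * d * ρ) = 8 * d * ρ ^ 2 := by ring
        _ ≤ _ := h1
    exact Nat.le_of_mul_le_mul_left h2 (by omega)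
  have hdd : 8 * d ≤ 8 * d * ρ := Nat.le_mul_of_pos_right _ hρ
  set r := B.card with hrdef
  -- rows
  let g : ({x // x ∈ B} × Fˣ) → {t // t ∈ T} → F := fun i t => (i.2 : F) * co i.1 t
  have hdiff : ∀ i j : {x // x ∈ B} × Fˣ, i ≠ j →
      8 * d * ρ ^ 2 - 1 ≤ (univ.filter (fun t => g i t ≠ g j t)).card := by
    intro i j hij
    obtain ⟨f, hf⟩ := hfun (fun x => (if x = i.1 then (i.2 : F) else 0) -
      (if x = j.1 then (j.2 : F) else 0))
    have hfT : ∀ t : {t // t ∈ T}, f t = g i t - g j t := by
      intro t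
      conv_lhs => rw [hcoT t t.2]
      rw [map_sum]
      have e : ∀ x ∈ B, f (co x t • x) = co x t * (if x = i.1 then (i.2 : F) else 0) -
          co x t * (if x = j.1 then (j.2 : F) else 0) := by
        intro x hx
        rw [map_smul, smul_eq_mul, hf x hx, mul_sub]
      rw [Finset.sum_congr rfl e, Finset.sum_sub_distrib]
      have e1 : ∀ (k : {x // x ∈ B}) (c : F), ∑ x ∈ B, co x t * (if x = k then c else 0) =
          c * co k t := by
        intro k c
        rw [Finset.sum_eq_single (k : V)]
        · simp [mul_comm]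
        · intro x _ hx
          rw [if_neg hx, mul_zero]
        · intro h; exact absurd k.2 h
      rw [e1, e1]
    have hex : ∃ a ∈ A, f a ≠ 0 := by
      refine ⟨i.1, hBA i.1.2, ?_⟩
      rw [hf _ i.1.2, if_pos rfl]
      by_cases h : (i.1 : V) = j.1
      · rw [if_pos h]
        intro h0
        apply hij
        exact Prod.ext (Subtype.ext h) (Units.ext (sub_eq_zero.mp h0))
      · rw [if_neg h, sub_zero]
        exact Units.ne_zero _
    have h1 := hcon f hex
    have hsub : A.filter (fun a => f a ≠ 0) ⊆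
        {(i.1 : V), (j.1 : V)} ∪ (univ.filter (fun t => g i t ≠ g j t)).map
          (Function.Embedding.subtype _) := by
      intro x hx
      obtain ⟨hx1, hx2⟩ := Finset.mem_filter.mp hx
      by_cases hxB : x ∈ B
      · rw [Finset.mem_union]
        left
        rw [hf x hxB] at hx2
        by_contra h
        rw [Finset.mem_insert, Finset.mem_singleton, not_or] at h
        rw [if_neg h.1, if_neg h.2, sub_zero] at hx2
        exact hx2 rfl
      · rw [Finset.mem_union]
        right
        have hxT : x ∈ T := Finset.mem_sdiff.mpr ⟨hx1, hxB⟩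
        refine Finset.mem_map.mpr ⟨⟨x, hxT⟩, Finset.mem_filter.mpr ⟨Finset.mem_univ _, ?_⟩, rfl⟩
        intro h
        apply hx2
        have := hfT ⟨x, hxT⟩
        simp only at this
        rw [this, h, sub_self]
    have h2 := Finset.card_le_card hsub
    have h3 := Finset.card_union_le {(i.1 : V), (j.1 : V)}
      ((univ.filter (fun t => g i t ≠ g j t)).map (Function.Embedding.subtype _))
    have h4 : ({(i.1 : V), (j.1 : V)} : Finset V).card ≤ 2 := Finset.card_le_two
    rw [Finset.card_map] at h3
    omega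
  have hG1 : 8 ≤ 8 * d * ρ ^ 2 := by
    calc 8 = 8 * 1 * 1 ^ 2 := by norm_num
      _ ≤ 8 * d * ρ ^ 2 := by gcongr
  -- `T` is nonempty
  have hTne : Nonempty {t // t ∈ T} := by
    by_contra hT
    have hr2 : 1 < B.card := by omega
    obtain ⟨x, hx, y, hy, hxy⟩ := Finset.one_lt_card.mp hr2
    have := hdiff (⟨x, hx⟩, 1) (⟨y, hy⟩, 1) (by
      intro h
      exact hxy (congrArg (fun z : {x // x ∈ B} × Fˣ => (z.1 : V)) h))
    have h0 : (univ.filter (fun t => g (⟨x, hx⟩, 1) t ≠ g (⟨y, hy⟩, 1) t)).card = 0 := by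
      rw [Finset.card_eq_zero]
      apply Finset.eq_empty_of_forall_notMem
      intro t _
      exact hT ⟨t⟩
    omega
  -- restrictions
  have hcount : ∀ T' : Finset {t // t ∈ T}, T'.card < r →
      (univ.image (fun i => mask T' (g i))).card ≤ (q - 1) * ρ * T'.card + 1 := by
    intro T' hT'
    have h1 := count B T co T'
    set T'' : Finset V := T'.map (Function.Embedding.subtype _) with hT''
    have hT''T : T'' ⊆ T := by
      intro x hx
      obtain ⟨t, _, rfl⟩ := Finset.mem_map.mp hx
      exact t.2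
    have hT''c : T''.card = T'.card := Finset.card_map _
    have hK4 : ¬ HasK4 F ((B ∪ T'').image (fun a => fun t : {t // t ∈ T''} =>
        if a ∈ B then co a t else if a = (t : V) then (1 : F) else 0)) := by
      intro h
      have h2 := hDual F V B T'' co (Finset.disjoint_of_subset_right hT''T hBT) hBli
        (fun t ht => hcoT t (hT''T ht)) (by convert h)
      apply hK
      refine HasK4.mono ?_ h2
      exact Finset.union_subset hBA (hT''T.trans Finset.sdiff_subset)
    have hrk : rk F ((B ∪ T'').image (fun a => fun t : {t // t ∈ T''} =>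
        if a ∈ B then co a t else if a = (t : V) then (1 : F) else 0)) ≤ T'.card := by
      unfold rk
      refine (Submodule.finrank_le _).trans ?_
      rw [Module.finrank_fintype_fun_eq_card, Fintype.card_coe, hT''c]
    have h3 := hmin _ _ hK4 (by rw [hr]; omega)
    have h4 : (q - 1) * npts F ((B ∪ T'').image (fun a => fun t : {t // t ∈ T''} =>
        if a ∈ B then co a t else if a = (t : V) then (1 : F) else 0)) ≤
        (q - 1) * (ρ * T'.card) := by
      apply Nat.mul_le_mul_left
      exact h3.trans (Nat.mul_le_mul_left _ hrk)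
    calc (univ.image (fun i => mask T' (g i))).card ≤ _ := h1
      _ ≤ (q - 1) * (ρ * T'.card) + 1 := by
        apply Nat.add_le_add_right
        convert h4
      _ = _ := by ring
  have hpack := hPack ({x // x ∈ B} × Fˣ) {t // t ∈ T} F g (8 * d * ρ ^ 2 - 1) ((q - 1) * ρ) d
    ((r - 2) / (2 * ρ) + 1) (Nat.le_add_left 1 _) hTne
    (by
      intro i j hij
      convert hdiff i j hij)
    (by
      intro T' hT'
      have hlt : T'.card < r := by
        rcases hT' with h | h
        · omega
        · have : (r - 2) / (2 * ρ) ≤ r - 2 := Nat.div_le_self _ _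
          omega
      convert hcount T' hlt)
    hnum
  have hcardI : Fintype.card ({x // x ∈ B} × Fˣ) = r * (q - 1) := by
    rw [Fintype.card_prod, Fintype.card_coe, Fintype.card_units]
  rw [hcardI, Fintype.card_coe] at hpack
  exact arith q ρ d r _ T.card hq2 hρ hd hr8 rfl (by omega) hpack

end MPed7341
end

section
/-
MP_ed7341_co, module COLOUR: the critical exponent from the density theorem and a small cocircuit.
-/
set_option autoImplicit false

namespace MPed7341

open Submodule Finset

namespace ColM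

variable {F : Type} [Field F] {V : Type} [AddCommGroup V] [Module F V]

theorem hit_mono {W : Submodule F V} {A E : Finset V} (h : A ⊆ E) {v : V} (hv : Hit W A v) :
    Hit W E v := by
  obtain ⟨e, he, c, hc, hm⟩ := hv
  exact ⟨e, h he, c, hc, hm⟩

theorem hasK4_mono {A E : Finset V} (h : A ⊆ E) (hA : HasK4 F A) : HasK4 F E := by
  obtain ⟨C, v1, v2, v3, hC, hI, h1, h2, h3, h4, h5, h6⟩ := hA
  exact ⟨C, v1, v2, v3, hC.trans h, hI, hit_mono h h1, hit_mono h h2, hit_mono h h3,
    hit_mono h h4, hit_mono h h5, hit_mono h h6⟩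

/-- representatives of the points of a set. -/
theorem exists_reps (E : Finset V) (h0 : (0 : V) ∉ E) :
    ∃ A : Finset V, A ⊆ E ∧ Simple F A ∧ ∀ e ∈ E, ∃ a ∈ A, ∃ c : F, c ≠ 0 ∧ e = c • a := by
  classical
  induction E using Finset.induction_on with
  | empty => exact ⟨∅, by simp, ⟨by simp, by simp⟩, by simp⟩
  | insert e E he ih =>
    have h0' : (0 : V) ∉ E := fun h => h0 (Finset.mem_insert_of_mem h)
    have he0 : e ≠ 0 := fun h => h0 (by rw [← h]; exact Finset.mem_insert_self _ _)
    obtain ⟨A, hA, hS, hr⟩ := ih h0'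
    by_cases hc : ∃ a ∈ A, ∃ c : F, c ≠ 0 ∧ e = c • a
    · refine ⟨A, hA.trans (Finset.subset_insert _ _), hS, ?_⟩
      intro x hx
      rcases Finset.mem_insert.mp hx with rfl | hx
      · exact hc
      · exact hr x hx
    · refine ⟨insert e A, Finset.insert_subset_insert _ hA, ⟨?_, ?_⟩, ?_⟩
      · intro h
        rcases Finset.mem_insert.mp h with h | h
        · exact he0 h.symm
        · exact hS.1 h
      · intro x hx y hy c hxy
        rcases Finset.mem_insert.mp hx with hxe | hxA
        · rcases Finset.mem_insert.mp hy with hye | hyA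
          · rw [hxe, hye]
          · exfalso
            have hc0 : c ≠ 0 := by
              rintro rfl
              rw [zero_smul] at hxy
              exact hS.1 (by rw [← hxy]; exact hyA)
            apply hc
            refine ⟨y, hyA, c⁻¹, inv_ne_zero hc0, ?_⟩
            rw [hxy, smul_smul, inv_mul_cancel₀ hc0, one_smul, hxe]
        · rcases Finset.mem_insert.mp hy with hye | hyA
          · exfalso
            have hc0 : c ≠ 0 := by
              rintro rfl
              rw [zero_smul] at hxy
              exact he0 (by rw [← hye]; exact hxy)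
            exact hc ⟨x, hxA, c, hc0, by rw [← hye]; exact hxy⟩
          · exact hS.2 x hxA y hyA c hxy
      · intro x hx
        rcases Finset.mem_insert.mp hx with rfl | hx
        · exact ⟨x, Finset.mem_insert_self _ _, 1, one_ne_zero, by rw [one_smul]⟩
        · obtain ⟨a, ha, c, hc0, h⟩ := hr x hx
          exact ⟨a, Finset.mem_insert_of_mem ha, c, hc0, h⟩

theorem card_le_npts (A : Finset V) (hS : Simple F A) : A.card ≤ npts F A := by
  classical
  unfold npts
  have hf : A.filter (fun v => v ≠ 0) = A := by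
    apply Finset.filter_true_of_mem
    intro v hv h
    exact hS.1 (by rw [← h]; exact hv)
  rw [hf]
  rw [Finset.card_image_of_injOn]
  intro x hx y hy hxy
  simp only at hxy
  have : y ∈ span F {x} := by
    rw [hxy]
    exact mem_span_singleton_self y
  obtain ⟨c, hc⟩ := mem_span_singleton.mp this
  exact (hS.2 x hx y hy c hc.symm).symm

theorem rk_le_of_subset {A E : Finset V} (h : A ⊆ E) : rk F A ≤ rk F E := by
  unfold rk
  have : Module.Finite F (span F (E : Set V)) := by
    apply Module.Finite.span_finset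
  exact Submodule.finrank_mono (span_mono (by exact_mod_cast h))

theorem rk_lt {E E' : Finset V} (f : Module.Dual F V) (h : E' ⊆ E) (h0 : ∀ e ∈ E', f e = 0)
    (a : V) (ha : a ∈ E) (hfa : f a ≠ 0) : rk F E' < rk F E := by
  unfold rk
  have : Module.Finite F (span F (E : Set V)) := by
    apply Module.Finite.span_finset
  apply Submodule.finrank_lt_finrank_of_lt
  refine lt_of_le_of_ne (span_mono (by exact_mod_cast h)) ?_
  intro he
  have h1 : a ∈ span F (E' : Set V) := by
    rw [he]
    exact subset_span (by exact_mod_cast ha)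
  have h2 : span F (E' : Set V) ≤ LinearMap.ker f := by
    rw [span_le]
    intro x hx
    exact h0 x (by exact_mod_cast hx)
  exact hfa (h2 h1)

end ColM

open ColM in
theorem specColour (hD : SpecDens) (hC : SpecCocir) : SpecColour := by
  classical
  intro F _ _ k d hN V _ _ E
  obtain ⟨hd, hk, hn1, hn2⟩ := hN
  have hN : Num (Fintype.card F) k d := ⟨hd, hk, hn1, hn2⟩
  have hq : 2 ≤ Fintype.card F := Fintype.one_lt_card
  have hh : 1 ≤ Fintype.card F * (Fintype.card F - 1) / 2 := by
    rw [Nat.le_div_iff_mul_le (by norm_num)]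
    calc 1 * 2 = 2 * 1 := by norm_num
      _ ≤ Fintype.card F * (Fintype.card F - 1) := Nat.mul_le_mul hq (by omega)
  have hρ : 1 ≤ k * (Fintype.card F * (Fintype.card F - 1) / 2) := Nat.mul_pos hk hh
  induction hr : rk F E using Nat.strong_induction_on generalizing E with
  | _ r ih =>
    intro hK h0
    by_cases hE : E = ∅
    · subst hE
      exact ⟨fun _ => 0, by simp⟩
    · obtain ⟨A, hAE, hS, hrep⟩ := exists_reps (F := F) E h0
      have hAne : A.Nonempty := by
        obtain ⟨e, he⟩ := Finset.nonempty_iff_ne_empty.mpr hE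
        obtain ⟨a, ha, _⟩ := hrep e he
        exact ⟨a, ha⟩
      have hKA : ¬ HasK4 F A := fun h => hK (hasK4_mono hAE h)
      have hcard : A.card ≤ k * (Fintype.card F * (Fintype.card F - 1) / 2) * rk F A + 1 :=
        ((card_le_npts A hS).trans (hD F k d hN V A hKA)).trans (Nat.le_succ _)
      obtain ⟨f, ⟨a, haA, hfa⟩, hsupp⟩ := hC F V A _ d hS hKA hAne hd hρ hn1 hcard
        (fun V' _ _ E' hE' _ => hD F k d hN V' E' hE')
      obtain ⟨φ, hφ⟩ := ih (rk F (E.filter (fun e => f e = 0)))
        (by
          rw [← hr]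
          exact rk_lt f (Finset.filter_subset _ _) (fun e he => (Finset.mem_filter.mp he).2) a
            (hAE haA) hfa) (E.filter (fun e => f e = 0)) rfl
        (fun h => hK (hasK4_mono (Finset.filter_subset _ _) h))
        (fun h => h0 (Finset.filter_subset _ _ h))
      -- the bad shifts
      let bad : Finset (Fin k → F) := (A.filter (fun a => f a ≠ 0)).image
        (fun a => fun i => - (φ i a) / f a)
      have hbad : bad.card < Fintype.card (Fin k → F) := by
        rw [Fintype.card_fun, Fintype.card_fin]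
        exact (Finset.card_image_le.trans hsupp).trans_lt hn2
      obtain ⟨w, hw⟩ : ∃ w, w ∉ bad := by
        by_contra hcon
        push Not at hcon
        have : bad = Finset.univ := by
          ext w
          simp [hcon w]
        rw [this, Finset.card_univ] at hbad
        exact lt_irrefl _ hbad
      refine ⟨fun i => φ i + w i • f, ?_⟩
      intro x hx
      by_cases hfx : f x = 0
      · obtain ⟨i, hi⟩ := hφ x (Finset.mem_filter.mpr ⟨hx, hfx⟩)
        refine ⟨i, ?_⟩
        simpa [hfx] using hi
      · by_contra hcon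
        push Not at hcon
        apply hw
        obtain ⟨b, hb, c, hc, hxb⟩ := hrep x hx
        have hfb : f b ≠ 0 := by
          intro h
          apply hfx
          rw [hxb, map_smul, h, smul_zero]
        refine Finset.mem_image.mpr ⟨b, Finset.mem_filter.mpr ⟨hb, hfb⟩, ?_⟩
        funext i
        have h := hcon i
        rw [hxb] at h
        simp only [LinearMap.add_apply, LinearMap.smul_apply, map_smul, smul_eq_mul] at h
        have h2 : c * (φ i b + w i * f b) = 0 := by
          linear_combination h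
        have h3 : φ i b + w i * f b = 0 := by
          rcases mul_eq_zero.mp h2 with h | h
          · exact absurd h hc
          · exact h
        rw [div_eq_iff hfb]
        linear_combination -h3

end MPed7341
end

section
/-
MP_ed7341_co, module CROSS: the crossing lemma.
-/
set_option autoImplicit false

namespace MPed7341

open Submodule Finset

section

variable {F : Type} [Field F] {V : Type} [AddCommGroup V] [Module F V]

omit [AddCommGroup V] in
theorem exists_step {p : Finset V → Prop} (h0 : p ∅) (C : Finset V) (hC : ¬ p C) :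
    ∃ (D : Finset V) (z : V), (D : Set V) ⊆ C ∧ z ∈ C ∧ p D ∧
      ∀ D' : Finset V, (D' : Set V) = insert z (D : Set V) → ¬ p D' := by
  classical
  induction C using Finset.induction_on with
  | empty => exact absurd h0 hC
  | insert a s ha ih =>
    by_cases hs : p s
    · refine ⟨s, a, ?_, Finset.mem_insert_self _ _, hs, ?_⟩
      · intro v hv
        exact Finset.mem_coe.2 (Finset.mem_insert_of_mem hv)
      · intro D' hD'
        have : D' = insert a s := by
          apply Finset.coe_injective
          rw [hD', Finset.coe_insert]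
        rw [this]
        exact hC
    · obtain ⟨D, z, h1, h2, h3, h4⟩ := ih hs
      exact ⟨D, z, fun v hv => Finset.mem_coe.2 (Finset.mem_insert_of_mem (h1 hv)),
        Finset.mem_insert_of_mem h2, h3, h4⟩

theorem ind2 {W : Submodule F V} {x y : V} (hx : x ∉ W) (hy : y ∉ W ⊔ span F {x}) {a b : F}
    (h : a • x + b • y ∈ W) : a = 0 ∧ b = 0 := by
  have hb : b = 0 := by
    by_contra hb
    apply hy
    have h1 : y = b⁻¹ • (a • x + b • y) + (-(b⁻¹ * a)) • x := by
      rw [smul_add, smul_smul, smul_smul, inv_mul_cancel₀ hb, one_smul, neg_smul]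
      abel
    rw [h1]
    exact add_mem (mem_sup_left (W.smul_mem _ h))
      (mem_sup_right (smul_mem _ _ (mem_span_singleton_self x)))
  refine ⟨?_, hb⟩
  by_contra ha
  apply hx
  rw [hb, zero_smul, add_zero] at h
  have := W.smul_mem a⁻¹ h
  rwa [smul_smul, inv_mul_cancel₀ ha, one_smul] at this

/-- core lemma: two crossing lines give `M(K_4)`. -/
theorem core {E C : Finset V} {x y w y' w' : V} (hCE : C ⊆ E)
    (hx : x ∈ E) (hyE : y ∈ E) (hwE : w ∈ E) (hy'E : y' ∈ E) (hw'E : w' ∈ E)
    (hxW : x ∉ span F (C : Set V)) (hy : y ∉ span F (C : Set V) ⊔ span F {x})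
    (hy' : y' ∉ span F {x} ⊔ span F {y})
    {a b a' b' lam mu : F} (ha : a ≠ 0) (hb : b ≠ 0) (hlam : lam ≠ 0) (hmu : mu ≠ 0)
    (hw : w = a • x + b • y) (hw' : w' = a' • x + b' • y')
    (h1 : y' - lam • y ∈ span F (C : Set V)) (h2 : w' - mu • w ∈ span F (C : Set V)) :
    HasK4 F E := by
  classical
  set W := span F (C : Set V) with hW
  -- comparison of coefficients
  have h3 : (a' - mu * a) • x + (b' * lam - mu * b) • y ∈ W := by
    have : (a' - mu * a) • x + (b' * lam - mu * b) • y =
        (w' - mu • w) - b' • (y' - lam • y) := by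
      rw [hw, hw']
      module
    rw [this]
    exact W.sub_mem h2 (W.smul_mem _ h1)
  obtain ⟨h4, h5⟩ := ind2 hxW hy h3
  have ha' : a' = mu * a := sub_eq_zero.1 h4
  have hb' : b' * lam = mu * b := sub_eq_zero.1 h5
  have hb'0 : b' ≠ 0 := by
    intro h
    rw [h, zero_mul] at hb'
    exact (mul_ne_zero hmu hb) hb'.symm
  -- the step
  have hp0 : Ind3 (span F ((∅ : Finset V) : Set V)) x y y' := by
    intro α β γ h
    rw [Finset.coe_empty, span_empty, mem_bot] at h
    have hγ : γ = 0 := by
      by_contra hγ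
      apply hy'
      have : y' = (-(γ⁻¹ * α)) • x + (-(γ⁻¹ * β)) • y := by
        have h' : γ⁻¹ • (α • x + β • y + γ • y') = 0 := by rw [h, smul_zero]
        rw [smul_add, smul_add, smul_smul, smul_smul, smul_smul, inv_mul_cancel₀ hγ, one_smul]
          at h'
        have h'' := eq_neg_of_add_eq_zero_right h'
        rw [h'']
        module
      rw [this]
      exact add_mem (mem_sup_left (smul_mem _ _ (mem_span_singleton_self x)))
        (mem_sup_right (smul_mem _ _ (mem_span_singleton_self y)))
    rw [hγ, zero_smul, add_zero] at h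
    have h' : α • x + β • y ∈ W := by rw [h]; exact W.zero_mem
    obtain ⟨h6, h7⟩ := ind2 hxW hy h'
    exact ⟨h6, h7, hγ⟩
  have hpC : ¬ Ind3 (span F (C : Set V)) x y y' := by
    intro h
    have h' : (0 : F) • x + (-lam) • y + (1 : F) • y' ∈ span F (C : Set V) := by
      have : (0 : F) • x + (-lam) • y + (1 : F) • y' = y' - lam • y := by module
      rw [this]
      exact h1
    exact one_ne_zero (h _ _ _ h').2.2
  obtain ⟨D, z, hDC, hzC, hD, hD'⟩ := exists_step (p := fun D : Finset V =>
    Ind3 (span F (D : Set V)) x y y') hp0 C hpC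
  have hD'' := hD' (insert z D) (by rw [Finset.coe_insert])
  have hDW : span F (D : Set V) ≤ W := span_mono hDC
  have hzW : z ∈ W := subset_span hzC
  unfold Ind3 at hD''
  push Not at hD''
  obtain ⟨α, β, γ, h6, h7⟩ := hD''
  rw [Finset.coe_insert, mem_span_insert] at h6
  obtain ⟨δ, n, hn, h8⟩ := h6
  have hδ : δ ≠ 0 := by
    intro h
    rw [h, zero_smul, zero_add] at h8
    have := hD α β γ (by rw [h8]; exact hn)
    exact h7 this.1 this.2.1 this.2.2
  have h9 : α • x + (β + γ * lam) • y ∈ W := by
    have : α • x + (β + γ * lam) • y = (δ • z + n) - γ • (y' - lam • y) := by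
      rw [← h8]
      module
    rw [this]
    exact W.sub_mem (W.add_mem (W.smul_mem _ hzW) (hDW hn)) (W.smul_mem _ h1)
  obtain ⟨hα, hβ⟩ := ind2 hxW hy h9
  have hβ' : β = -(γ * lam) := eq_neg_of_add_eq_zero_left hβ
  have hγ : γ ≠ 0 := by
    intro h
    rw [h, zero_mul, neg_zero] at hβ'
    exact h7 hα hβ' h
  refine ⟨D, lam • y, y', (-(a * lam / b)) • x, ?_, ?_, ?_, ?_, ?_, ?_, ?_, ?_⟩
  · intro v hv
    exact hCE (hDC hv)
  · intro p q r h
    have h' : (r * (-(a * lam / b))) • x + (p * lam) • y + q • y' ∈ span F (D : Set V) := by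
      have : (r * (-(a * lam / b))) • x + (p * lam) • y + q • y' =
        p • lam • y + q • y' + r • (-(a * lam / b)) • x := by module
      rw [this]
      exact h
    obtain ⟨e1, e2, e3⟩ := hD _ _ _ h'
    refine ⟨?_, e3, ?_⟩
    · exact (mul_eq_zero.1 e2).resolve_right hlam
    · refine (mul_eq_zero.1 e1).resolve_right ?_
      exact neg_ne_zero.2 (div_ne_zero (mul_ne_zero ha hlam) hb)
  · refine ⟨y, hyE, lam⁻¹, inv_ne_zero hlam, ?_⟩
    rw [smul_smul, inv_mul_cancel₀ hlam, one_smul, sub_self]
    exact zero_mem _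
  · refine ⟨y', hy'E, 1, one_ne_zero, ?_⟩
    rw [one_smul, sub_self]
    exact zero_mem _
  · refine ⟨x, hx, -(b / (a * lam)), neg_ne_zero.2 (div_ne_zero hb (mul_ne_zero ha hlam)), ?_⟩
    have : (-(b / (a * lam))) • (-(a * lam / b)) • x = x := by
      rw [smul_smul]
      have : (-(b / (a * lam))) * (-(a * lam / b)) = 1 := by field_simp
      rw [this, one_smul]
    rw [this, sub_self]
    exact zero_mem _
  · refine ⟨z, hCE hzC, -(γ / δ), neg_ne_zero.2 (div_ne_zero hγ hδ), ?_⟩
    have : z - (-(γ / δ)) • (lam • y - y') = (-δ⁻¹) • n := by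
      have hn' : n = α • x + β • y + γ • y' - δ • z := by rw [h8]; abel
      rw [hn', hα, hβ']
      have e : z = (δ⁻¹ * δ) • z := by rw [inv_mul_cancel₀ hδ, one_smul]
      rw [div_eq_mul_inv]
      conv_lhs => rw [e]
      module
    rw [this]
    exact smul_mem _ _ hn
  · refine ⟨w', hw'E, b', hb'0, ?_⟩
    have : w' - b' • (y' - (-(a * lam / b)) • x) = (a' - b' * lam * a / b) • x := by
      rw [hw']
      module
    rw [this, ha', hb']
    have : mu * a - mu * b * a / b = 0 := by field_simp; ring
    rw [this, zero_smul]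
    exact zero_mem _
  · refine ⟨w, hwE, b / lam, div_ne_zero hb hlam, ?_⟩
    have : w - (b / lam) • (lam • y - (-(a * lam / b)) • x) =
        (a - b / lam * (a * lam / b)) • x + (b - b / lam * lam) • y := by
      rw [hw]
      module
    rw [this]
    have e1 : a - b / lam * (a * lam / b) = 0 := by field_simp; ring
    have e2 : b - b / lam * lam = 0 := by field_simp; ring
    rw [e1, e2, zero_smul, zero_smul, add_zero]
    exact zero_mem _

theorem mem_sup_singleton {W : Submodule F V} {y v : V} :
    v ∈ W ⊔ span F {y} ↔ ∃ c : F, v - c • y ∈ W := by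
  rw [Submodule.mem_sup]
  constructor
  · rintro ⟨n, hn, m, hm, rfl⟩
    obtain ⟨c, rfl⟩ := mem_span_singleton.1 hm
    exact ⟨c, by rwa [add_sub_cancel_right]⟩
  · rintro ⟨c, hc⟩
    exact ⟨_, hc, c • y, smul_mem _ _ (mem_span_singleton_self y), by abel⟩

theorem mem_line {x y v : V} :
    v ∈ span F {x} ⊔ span F {y} ↔ ∃ a b : F, v = a • x + b • y := by
  rw [mem_sup_singleton]
  constructor
  · rintro ⟨c, hc⟩
    obtain ⟨a, ha⟩ := mem_span_singleton.1 hc
    exact ⟨a, c, by rw [ha]; abel⟩
  · rintro ⟨a, b, rfl⟩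
    exact ⟨b, by
      rw [add_sub_cancel_right]
      exact smul_mem _ _ (mem_span_singleton_self x)⟩

theorem sup_eq_of_mem {W : Submodule F V} {y v : V} (h : v ∈ W ⊔ span F {y}) (hv : v ∉ W) :
    W ⊔ span F {v} = W ⊔ span F {y} := by
  apply le_antisymm
  · exact sup_le le_sup_left ((span_singleton_le_iff_mem _ _).2 h)
  · refine sup_le le_sup_left ((span_singleton_le_iff_mem _ _).2 ?_)
    obtain ⟨c, hc⟩ := mem_sup_singleton.1 h
    have hc0 : c ≠ 0 := by
      intro h0
      rw [h0, zero_smul, sub_zero] at hc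
      exact hv hc
    rw [mem_sup_singleton]
    refine ⟨c⁻¹, ?_⟩
    have : y - c⁻¹ • v = (-c⁻¹) • (v - c • y) := by
      rw [smul_sub, smul_smul, neg_mul, inv_mul_cancel₀ hc0, neg_smul, neg_smul, one_smul]
      abel
    rw [this]
    exact W.smul_mem _ hc

/-- on one line through `x` the classes modulo `W` are different. -/
theorem same_line {E : Finset V} {W : Submodule F V} {x y y' : V} (hS : Simple F E)
    (hyE : y ∈ E) (hy'E : y' ∈ E) (hxW : x ∉ W) (hy : y ∉ W ⊔ span F {x})
    (h1 : span F {x} ⊔ span F {y'} = span F {x} ⊔ span F {y})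
    (h2 : W ⊔ span F {y'} = W ⊔ span F {y}) : y' = y := by
  have h3 : y' ∈ span F {x} ⊔ span F {y} := by
    rw [← h1]
    exact mem_sup_right (mem_span_singleton_self y')
  obtain ⟨a, b, hab⟩ := mem_line.1 h3
  have h4 : y' ∈ W ⊔ span F {y} := by
    rw [← h2]
    exact mem_sup_right (mem_span_singleton_self y')
  obtain ⟨c, hc⟩ := mem_sup_singleton.1 h4
  have h5 : a • x + (b - c) • y ∈ W := by
    have : a • x + (b - c) • y = y' - c • y := by
      rw [hab]
      module
    rw [this]
    exact hc
  obtain ⟨ha, -⟩ := ind2 hxW hy h5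
  rw [ha, zero_smul, zero_add] at hab
  exact hS.2 y hyE y' hy'E b hab

theorem two_lines {E C : Finset V} {x y w y' w' : V} (hCE : C ⊆ E)
    (hx : x ∈ E) (hyE : y ∈ E) (hwE : w ∈ E) (hy'E : y' ∈ E) (hw'E : w' ∈ E)
    (hxW : x ∉ span F (C : Set V)) (hy : y ∉ span F (C : Set V) ⊔ span F {x})
    (hw : w ∉ span F (C : Set V) ⊔ span F {x}) (hy' : y' ∉ span F (C : Set V) ⊔ span F {x})
    (hw' : w' ∉ span F (C : Set V) ⊔ span F {x})
    (hL : span F {x} ⊔ span F {y} = span F {x} ⊔ span F {w})
    (hL' : span F {x} ⊔ span F {y'} = span F {x} ⊔ span F {w'})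
    (hne : span F {x} ⊔ span F {y} ≠ span F {x} ⊔ span F {y'})
    (hc1 : span F (C : Set V) ⊔ span F {y} = span F (C : Set V) ⊔ span F {y'})
    (hc2 : span F (C : Set V) ⊔ span F {w} = span F (C : Set V) ⊔ span F {w'})
    (hc3 : span F (C : Set V) ⊔ span F {y} ≠ span F (C : Set V) ⊔ span F {w}) :
    HasK4 F E := by
  set W := span F (C : Set V) with hW
  have e1 : w ∈ span F {x} ⊔ span F {y} := by
    rw [hL]
    exact mem_sup_right (mem_span_singleton_self w)
  obtain ⟨a, b, hab⟩ := mem_line.1 e1
  have e2 : w' ∈ span F {x} ⊔ span F {y'} := by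
    rw [hL']
    exact mem_sup_right (mem_span_singleton_self w')
  obtain ⟨a', b', hab'⟩ := mem_line.1 e2
  have hb : b ≠ 0 := by
    intro h
    rw [h, zero_smul, add_zero] at hab
    apply hw
    rw [hab]
    exact mem_sup_right (smul_mem _ _ (mem_span_singleton_self x))
  have ha : a ≠ 0 := by
    intro h
    rw [h, zero_smul, zero_add] at hab
    apply hc3
    have hwW : w ∉ W := fun h' => hw (mem_sup_left h')
    refine (sup_eq_of_mem ?_ hwW).symm
    rw [hab]
    exact mem_sup_right (smul_mem _ _ (mem_span_singleton_self y))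
  have e3 : y' ∈ W ⊔ span F {y} := by
    rw [hc1]
    exact mem_sup_right (mem_span_singleton_self y')
  obtain ⟨lam, hlam⟩ := mem_sup_singleton.1 e3
  have hlam0 : lam ≠ 0 := by
    intro h
    rw [h, zero_smul, sub_zero] at hlam
    exact hy' (mem_sup_left hlam)
  have e4 : w' ∈ W ⊔ span F {w} := by
    rw [hc2]
    exact mem_sup_right (mem_span_singleton_self w')
  obtain ⟨mu, hmu⟩ := mem_sup_singleton.1 e4
  have hmu0 : mu ≠ 0 := by
    intro h
    rw [h, zero_smul, sub_zero] at hmu
    exact hw' (mem_sup_left hmu)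
  have hy'2 : y' ∉ span F {x} ⊔ span F {y} := by
    intro h
    apply hne
    refine (sup_eq_of_mem h ?_).symm
    intro h'
    exact hy' (mem_sup_right h')
  exact core hCE hx hyE hwE hy'E hw'E hxW hy hy'2 ha hb hlam0 hmu0 hab hab' hlam hmu

end

open Classical in
theorem specCross : SpecCross := by
  intro F _ V _ _ E C x hS hK hCE hx hxW
  set W := span F (C : Set V) with hW
  set B := E.filter (fun e => e ∉ W ⊔ span F {x}) with hB
  set L : V → Submodule F V := fun v => span F {x} ⊔ span F {v} with hL
  set cl : V → Submodule F V := fun v => W ⊔ span F {v} with hcl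
  have hBE : ∀ v ∈ B, v ∈ E := fun v hv => (Finset.mem_filter.1 hv).1
  have hBW : ∀ v ∈ B, v ∉ W ⊔ span F {x} := fun v hv => (Finset.mem_filter.1 hv).2
  have hrep : ∀ l ∈ B.image L, ∃ v ∈ B, L v = l := by
    intro l hl
    obtain ⟨v, hv, rfl⟩ := Finset.mem_image.1 hl
    exact ⟨v, hv, rfl⟩
  choose! rep hrepB hrepL using hrep
  set B0 := (B.image L).image rep with hB0
  have hB0B : B0 ⊆ B := by
    intro v hv
    obtain ⟨l, hl, rfl⟩ := Finset.mem_image.1 hv
    exact hrepB l hl
  have hB0card : B0.card = (B.image L).card := by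
    apply Finset.card_image_of_injOn
    intro l hl l' hl' h
    rw [← hrepL l hl, ← hrepL l' hl', h]
  have hrest : (B \ B0).card ≤ ((B.image cl).card).choose 2 := by
    rw [← Finset.card_powersetCard]
    have hmem : ∀ y ∈ B \ B0, rep (L y) ∈ B ∧ L (rep (L y)) = L y ∧ y ∈ B ∧ y ≠ rep (L y) := by
      intro y hy
      rw [Finset.mem_sdiff] at hy
      have hLy : L y ∈ B.image L := Finset.mem_image_of_mem _ hy.1
      refine ⟨hrepB _ hLy, hrepL _ hLy, hy.1, ?_⟩
      intro h
      apply hy.2
      rw [h]
      exact Finset.mem_image_of_mem _ hLy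
    have hclne : ∀ y ∈ B \ B0, cl (rep (L y)) ≠ cl y := by
      intro y hy h
      obtain ⟨h1, h2, h3, h4⟩ := hmem y hy
      exact h4 (same_line hS (hBE _ h1) (hBE _ h3) hxW (hBW _ h1) h2.symm h.symm)
    apply Finset.card_le_card_of_injOn (fun y => {cl (rep (L y)), cl y})
    · intro y hy
      obtain ⟨h1, h2, h3, h4⟩ := hmem y hy
      rw [Finset.mem_coe, Finset.mem_powersetCard]
      refine ⟨?_, Finset.card_pair (hclne y hy)⟩
      intro c hc
      rw [Finset.mem_insert, Finset.mem_singleton] at hc
      rcases hc with rfl | rfl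
      · exact Finset.mem_image_of_mem _ h1
      · exact Finset.mem_image_of_mem _ h3
    · intro y hy y' hy' h
      obtain ⟨h1, h2, h3, h4⟩ := hmem y hy
      obtain ⟨h1', h2', h3', h4'⟩ := hmem y' hy'
      have hne := hclne y hy
      have hne' := hclne y' hy'
      have hcases : (cl (rep (L y)) = cl (rep (L y')) ∧ cl y = cl y') ∨
          (cl (rep (L y)) = cl y' ∧ cl y = cl (rep (L y'))) := by
        have hh : ({cl (rep (L y)), cl y} : Finset (Submodule F V)) =
          {cl (rep (L y')), cl y'} := h
        have m1 : cl (rep (L y)) ∈ ({cl (rep (L y')), cl y'} : Finset (Submodule F V)) := by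
          rw [← hh]; exact Finset.mem_insert_self _ _
        have m2 : cl y ∈ ({cl (rep (L y')), cl y'} : Finset (Submodule F V)) := by
          rw [← hh]; exact Finset.mem_insert_of_mem (Finset.mem_singleton_self _)
        rw [Finset.mem_insert, Finset.mem_singleton] at m1 m2
        rcases m1 with m1 | m1 <;> rcases m2 with m2 | m2
        · exact absurd (m1.trans m2.symm) hne
        · exact Or.inl ⟨m1, m2⟩
        · exact Or.inr ⟨m1, m2⟩
        · exact absurd (m1.trans m2.symm) hne
      by_cases hLL : L y = L y'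
      · rcases hcases with ⟨-, c2⟩ | ⟨c1, -⟩
        · exact same_line hS (hBE _ h3') (hBE _ h3) hxW (hBW _ h3') hLL c2
        · rw [hLL] at c1
          exact absurd c1 hne'
      · exfalso
        rcases hcases with ⟨c1, c2⟩ | ⟨c1, c2⟩
        · refine hK (two_lines hCE hx (hBE _ h3) (hBE _ h1) (hBE _ h3') (hBE _ h1') hxW
            (hBW _ h3) (hBW _ h1) (hBW _ h3') (hBW _ h1') h2.symm h2'.symm hLL c2 c1 hne.symm)
        · refine hK (two_lines hCE hx (hBE _ h3) (hBE _ h1) (hBE _ h1') (hBE _ h3') hxW
            (hBW _ h3) (hBW _ h1) (hBW _ h1') (hBW _ h3') h2.symm h2' ?_ c2 c1 hne.symm)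
          rw [show span F {x} ⊔ span F {rep (L y')} = L y' from h2']
          exact hLL
  have hsum : (B \ B0).card + B0.card = B.card := Finset.card_sdiff_add_card_eq_card hB0B
  have : B.card ≤ (B.image L).card + ((B.image cl).card).choose 2 := by omega
  exact this

end MPed7341
end

section
/-
MP_ed7341_co, module MAP: minors of contractions are minors (helper80).
-/
set_option autoImplicit false

namespace MPed7341

open Submodule Finset

/-- `HasK4` is monotone. -/
theorem HasK4.mono {F : Type} [Field F] {V : Type} [AddCommGroup V] [Module F V]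
    {A E : Finset V} (h : A ⊆ E) (hA : HasK4 F A) : HasK4 F E := by
  obtain ⟨C, v1, v2, v3, hC, hI, h1, h2, h3, h4, h5, h6⟩ := hA
  have key : ∀ v, Hit (span F (C : Set V)) A v → Hit (span F (C : Set V)) E v := by
    rintro v ⟨e, he, c, hc, hm⟩
    exact ⟨e, h he, c, hc, hm⟩
  exact ⟨C, v1, v2, v3, hC.trans h, hI, key _ h1, key _ h2, key _ h3, key _ h4, key _ h5,
    key _ h6⟩

theorem specMap : SpecMap := by
  intro F _ V V' _ _ _ _ _ π C0 E hC0 hsurj hker hK
  classical
  obtain ⟨C', v1', v2', v3', hC', hI, h1, h2, h3, h4, h5, h6⟩ := hK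
  obtain ⟨C1, hC1E, hC1⟩ := Finset.subset_image_iff.1 hC'
  obtain ⟨v1, rfl⟩ := hsurj v1'
  obtain ⟨v2, rfl⟩ := hsurj v2'
  obtain ⟨v3, rfl⟩ := hsurj v3'
  have hC1s : (C' : Set V') = π '' (C1 : Set V) := by
    rw [← hC1, Finset.coe_image]
  have hspan : ∀ v : V, v ∈ span F ((C0 ∪ C1 : Finset V) : Set V) ↔
      π v ∈ span F (C' : Set V') := by
    intro v
    have e1 : span F ((C0 ∪ C1 : Finset V) : Set V) =
        Submodule.comap π (span F (C' : Set V')) := by
      rw [hC1s, ← Submodule.map_span, Submodule.comap_map_eq, hker, Finset.coe_union,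
        Submodule.span_union, sup_comm]
    rw [e1]; rfl
  have hhit : ∀ v : V, Hit (span F (C' : Set V')) (E.image π) (π v) →
      Hit (span F ((C0 ∪ C1 : Finset V) : Set V)) E v := by
    rintro v ⟨e', he', c, hc, hm⟩
    obtain ⟨e, he, rfl⟩ := Finset.mem_image.1 he'
    refine ⟨e, he, c, hc, ?_⟩
    rw [hspan, map_sub, map_smul]
    exact hm
  refine ⟨C0 ∪ C1, v1, v2, v3, Finset.union_subset hC0 hC1E, ?_, hhit _ h1, hhit _ h2, hhit _ h3,
    hhit _ (by rw [map_sub]; exact h4), hhit _ (by rw [map_sub]; exact h5),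
    hhit _ (by rw [map_sub]; exact h6)⟩
  intro a b c habc
  rw [hspan] at habc
  simp only [map_add, map_smul] at habc
  exact hI a b c habc

end MPed7341
end

section
/-
MP_ed7341_co, module DENS: density theorem (helper80).
-/
set_option autoImplicit false

namespace MPed7341

open Submodule Finset

namespace Dens

variable {F : Type} [Field F] {V : Type} [AddCommGroup V] [Module F V]

theorem rk_mono {A E : Finset V} (h : A ⊆ E) : rk F A ≤ rk F E := by
  unfold rk
  exact Submodule.finrank_mono (Submodule.span_mono (by exact_mod_cast h))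

theorem finrank_sup_singleton_le (S : Submodule F V) [FiniteDimensional F S] (a : V) :
    Module.finrank F (S ⊔ span F {a} : Submodule F V) ≤ Module.finrank F S + 1 := by
  have h := Submodule.finrank_add_le_finrank_add_finrank S (span F {a})
  have h2 : Module.finrank F (span F {a}) ≤ 1 := by
    by_cases ha : a = 0
    · subst ha
      rw [Submodule.span_singleton_eq_bot.2 rfl, finrank_bot]
      exact Nat.zero_le 1
    · rw [finrank_span_singleton ha]
  omega

open Classical in
theorem rk_insert_le (C : Finset V) (a : V) : rk F (insert a C) ≤ rk F C + 1 := by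
  unfold rk
  rw [Finset.coe_insert, Submodule.span_insert, sup_comm]
  exact finrank_sup_singleton_le _ _

open Classical in
theorem rk_insert_gt {C : Finset V} {a : V} (ha : a ∉ span F (C : Set V)) :
    rk F C < rk F (insert a C) := by
  unfold rk
  apply Submodule.finrank_lt_finrank_of_lt
  rw [Finset.coe_insert]
  refine lt_of_le_of_ne (Submodule.span_mono (Set.subset_insert _ _)) ?_
  intro h
  apply ha
  rw [h]
  exact Submodule.subset_span (Set.mem_insert _ _)

/-- a proper set of vectors of a hyperplane is contained in a spanned hyperplane. -/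
theorem exists_hyper (A C0 : Finset V) (h0 : C0 ⊆ A) (hr : rk F C0 < rk F A) :
    ∃ C : Finset V, C0 ⊆ C ∧ C ⊆ A ∧ rk F A = rk F C + 1 := by
  classical
  have hne : (A.powerset.filter (fun C => C0 ⊆ C ∧ rk F C < rk F A)).Nonempty :=
    ⟨C0, by simp [h0, hr]⟩
  obtain ⟨C, hC, hmax⟩ := Finset.exists_max_image _ (fun C : Finset V => C.card) hne
  simp only [Finset.mem_filter, Finset.mem_powerset] at hC hmax
  obtain ⟨hCA, h0C, hrC⟩ := hC
  refine ⟨C, h0C, hCA, ?_⟩
  by_contra hcon
  have hlt : rk F C + 1 < rk F A := by omega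
  have hex : ∃ a ∈ A, a ∉ span F (C : Set V) := by
    by_contra hall
    push Not at hall
    have : rk F A ≤ rk F C := by
      unfold rk
      apply Submodule.finrank_mono
      rw [Submodule.span_le]
      intro a ha
      exact hall a (by exact_mod_cast ha)
    omega
  obtain ⟨a, haA, haC⟩ := hex
  have haC' : a ∉ C := fun h => haC (Submodule.subset_span (by exact_mod_cast h))
  have h1 := hmax (insert a C) ⟨Finset.insert_subset haA hCA,
    h0C.trans (Finset.subset_insert _ _), lt_of_le_of_lt (rk_insert_le C a) hlt⟩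
  rw [Finset.card_insert_of_notMem haC'] at h1
  omega

open Classical in
theorem rk_image_mkQ {A : Finset V} {z : V} (hz : z ∈ A) (hz0 : z ≠ 0) :
    rk F (A.image (span F {z}).mkQ) + 1 ≤ rk F A := by
  unfold rk
  set π := (span F {z}).mkQ with hπ
  set S := span F (A : Set V) with hS
  have hzS : z ∈ S := Submodule.subset_span (by exact_mod_cast hz)
  have h1 : span F ((A.image π : Finset (V ⧸ span F {z})) : Set (V ⧸ span F {z})) =
      LinearMap.range (π.domRestrict S) := by
    rw [Finset.coe_image, ← Submodule.map_span, ← hS]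
    ext w
    simp only [Submodule.mem_map, LinearMap.mem_range, LinearMap.domRestrict_apply,
      Subtype.exists]
    constructor
    · rintro ⟨y, hy, rfl⟩
      exact ⟨y, hy, rfl⟩
    · rintro ⟨y, hy, rfl⟩
      exact ⟨y, hy, rfl⟩
  have h2 := LinearMap.finrank_range_add_finrank_ker (π.domRestrict S)
  have h3 : 1 ≤ Module.finrank F (LinearMap.ker (π.domRestrict S)) := by
    rw [Nat.one_le_iff_ne_zero]
    intro h
    have hbot : LinearMap.ker (π.domRestrict S) = ⊥ := by
      rwa [Submodule.finrank_eq_zero] at h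
    have : (⟨z, hzS⟩ : S) ∈ LinearMap.ker (π.domRestrict S) := by
      rw [LinearMap.mem_ker, LinearMap.domRestrict_apply, hπ, Submodule.mkQ_apply,
        Submodule.Quotient.mk_eq_zero]
      exact Submodule.mem_span_singleton_self z
    rw [hbot, Submodule.mem_bot] at this
    exact hz0 (congrArg Subtype.val this)
  rw [h1]
  omega

open Classical in
theorem ncl_le {A : Finset V} (hA : Simple F A) {z : V} (hz : z ∈ A) :
    ncl (span F {z}) (A.erase z) ≤ npts F (A.image (span F {z}).mkQ) := by
  unfold ncl npts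
  set π := (span F {z}).mkQ with hπ
  have hcomap : ∀ v : V, span F {z} ⊔ span F {v} =
      Submodule.comap π (span F {π v}) := by
    intro v
    have : span F {π v} = Submodule.map π (span F {v}) := by
      rw [Submodule.map_span, Set.image_singleton]
    rw [this, Submodule.comap_map_eq, hπ, Submodule.ker_mkQ, sup_comm]
  have h1 : (A.erase z).image (fun v => span F {z} ⊔ span F {v}) =
      ((A.erase z).image (fun v => span F {π v})).image (Submodule.comap π) := by
    rw [Finset.image_image]
    apply Finset.image_congr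
    intro v _
    exact hcomap v
  rw [h1]
  refine le_trans Finset.card_image_le (Finset.card_le_card ?_)
  intro W hW
  obtain ⟨v, hv, rfl⟩ := Finset.mem_image.1 hW
  rw [Finset.mem_erase] at hv
  refine Finset.mem_image.2 ⟨π v, ?_, rfl⟩
  rw [Finset.mem_filter]
  refine ⟨Finset.mem_image_of_mem _ hv.2, ?_⟩
  intro h0
  rw [hπ, Submodule.mkQ_apply, Submodule.Quotient.mk_eq_zero,
    Submodule.mem_span_singleton] at h0
  obtain ⟨c, hc⟩ := h0
  exact hv.1 (hA.2 z hz v hv.2 c hc.symm)

open Classical in
theorem npts_eq_card {A : Finset V} (hA : Simple F A) : npts F A = A.card := by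
  unfold npts
  have h1 : A.filter (fun v => v ≠ 0) = A := by
    rw [Finset.filter_eq_self]
    intro v hv h
    exact hA.1 (h ▸ hv)
  rw [h1, Finset.card_image_of_injOn]
  intro x hx y hy hxy
  have hy' : y ∈ span F {x} := by
    have h2 : y ∈ span F {y} := Submodule.mem_span_singleton_self y
    have hxy' : span F {x} = span F {y} := hxy
    rw [hxy']
    exact h2
  obtain ⟨c, hc⟩ := Submodule.mem_span_singleton.1 hy'
  exact (hA.2 x (by exact_mod_cast hx) y (by exact_mod_cast hy) c hc.symm).symm

theorem simple_mono {A B : Finset V} (h : A ⊆ B) (hB : Simple F B) : Simple F A :=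
  ⟨fun h0 => hB.1 (h h0), fun x hx y hy c hc => hB.2 x (h hx) y (h hy) c hc⟩

/-- a dense set contains a critical simple subset. -/
theorem exists_critical (E : Finset V) (ρ : ℕ) (h : ρ * rk F E + 1 ≤ npts F E) :
    ∃ A : Finset V, A ⊆ E ∧ Simple F A ∧ A.card = ρ * rk F A + 1 := by
  classical
  have hne : (E.powerset.filter (fun A => ρ * rk F A + 1 ≤ npts F A)).Nonempty :=
    ⟨E, Finset.mem_filter.2 ⟨Finset.mem_powerset.2 (Finset.Subset.refl E), h⟩⟩
  obtain ⟨A, hA, hmin⟩ := Finset.exists_min_image _ (fun C : Finset V => C.card) hne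
  simp only [Finset.mem_filter, Finset.mem_powerset] at hA hmin
  obtain ⟨hAE, hAr⟩ := hA
  have herase : ∀ x ∈ A, npts F (A.erase x) < ρ * rk F A + 1 := by
    intro x hx
    by_contra hcon
    push Not at hcon
    have hr : rk F (A.erase x) ≤ rk F A := rk_mono (Finset.erase_subset _ _)
    have h2 := hmin (A.erase x) ⟨(Finset.erase_subset _ _).trans hAE, by
      calc ρ * rk F (A.erase x) + 1 ≤ ρ * rk F A + 1 := by gcongr
        _ ≤ _ := hcon⟩
    have := Finset.card_erase_lt_of_mem hx
    omega
  have hsimple : Simple F A := by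
    constructor
    · intro h0
      have h3 := herase 0 h0
      have h4 : npts F (A.erase 0) = npts F A := by
        unfold npts
        congr 2
        ext v
        simp only [Finset.mem_filter, Finset.mem_erase]
        tauto
      omega
    · intro x hx y hy c hc
      by_contra hne'
      have h3 := herase y hy
      by_cases hy0 : y = 0
      · have h4 : npts F (A.erase y) = npts F A := by
          subst hy0
          unfold npts
          congr 2
          ext v
          simp only [Finset.mem_filter, Finset.mem_erase]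
          tauto
        omega
      · have hc0 : c ≠ 0 := by
          rintro rfl
          rw [zero_smul] at hc
          exact hy0 hc
        have hx0 : x ≠ 0 := by
          rintro rfl
          rw [smul_zero] at hc
          exact hy0 hc
        have hsp : span F {y} = span F {x} := by
          rw [hc]
          exact Submodule.span_singleton_smul_eq (IsUnit.mk0 c hc0) x
        have h4 : npts F (A.erase y) = npts F A := by
          unfold npts
          congr 1
          ext W
          simp only [Finset.mem_image, Finset.mem_filter, Finset.mem_erase]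
          constructor
          · rintro ⟨v, ⟨⟨_, hv⟩, hv0⟩, rfl⟩
            exact ⟨v, ⟨hv, hv0⟩, rfl⟩
          · rintro ⟨v, ⟨hv, hv0⟩, rfl⟩
            by_cases hvy : v = y
            · refine ⟨x, ⟨⟨fun h => hne' h.symm, hx⟩, hx0⟩, ?_⟩
              rw [hvy, hsp]
            · exact ⟨v, ⟨⟨hvy, hv⟩, hv0⟩, rfl⟩
        omega
  refine ⟨A, hAE, hsimple, ?_⟩
  have hcard := npts_eq_card hsimple
  apply le_antisymm _ (by omega)
  have hAne : A.Nonempty := by
    rw [← Finset.card_pos]
    omega
  obtain ⟨x, hx⟩ := hAne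
  have h3 := herase x hx
  rw [npts_eq_card (simple_mono (Finset.erase_subset _ _) hsimple), Finset.card_erase_of_mem hx] at h3
  omega

end Dens

open Dens in
theorem specDens (hG : SpecGrow) (hC : SpecCocir) : SpecDens := by
  intro F _ _ k d hnum
  classical
  obtain ⟨hd, hk, hnum1, hnum2⟩ := hnum
  set q := Fintype.card F with hq
  set κ := q * (q - 1) / 2 with hκ
  set ρ := k * κ with hρ
  have hq2 : 2 ≤ q := Fintype.one_lt_card
  have hκ1 : 1 ≤ κ := by
    rw [hκ, Nat.le_div_iff_mul_le (by norm_num)]
    calc 1 * 2 = 2 * 1 := by norm_num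
      _ ≤ q * (q - 1) := Nat.mul_le_mul hq2 (by omega)
  have hρ1 : 1 ≤ ρ := by
    rw [hρ]
    exact Nat.mul_pos (by omega) (by omega)
  have main : ∀ n : ℕ, ∀ (V : Type) [AddCommGroup V] [Module F V] (E : Finset V),
      ¬ HasK4 F E → rk F E = n → npts F E ≤ ρ * n := by
    intro n
    induction n using Nat.strong_induction_on with
    | _ n ih =>
      intro V _ _ E hE hrk
      by_contra hcon
      push Not at hcon
      obtain ⟨A, hAE, hAs, hAc⟩ := exists_critical (F := F) E ρ (by rw [hrk]; omega)
      have hAK : ¬ HasK4 F A := fun h => hE (h.mono hAE)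
      have hArk : rk F A ≤ n := hrk ▸ rk_mono hAE
      have hAne : A.Nonempty := by
        rw [← Finset.card_pos]; omega
      have hex : ∀ z ∈ A, ncl (span F {z}) (A.erase z) + ρ ≤ (A.erase z).card := by
        intro z hz
        have hz0 : z ≠ 0 := fun h => hAs.1 (h ▸ hz)
        have h1 := ncl_le hAs hz
        have h2 := rk_image_mkQ (F := F) hz hz0
        have hK : ¬ HasK4 F (A.image (span F {z}).mkQ) := by
          intro hK
          refine hAK (specMap F V (V ⧸ span F {z}) (span F {z}).mkQ {z} A
            (by simpa using hz) (Submodule.mkQ_surjective _) ?_ hK)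
          rw [Submodule.ker_mkQ, Finset.coe_singleton]
        have h3 := ih (rk F (A.image (span F {z}).mkQ)) (by omega)
          (V ⧸ span F {z}) (A.image (span F {z}).mkQ) hK rfl
        have h4 : ρ * rk F (A.image (span F {z}).mkQ) + ρ ≤ ρ * rk F A := by
          calc ρ * rk F (A.image (span F {z}).mkQ) + ρ
              = ρ * (rk F (A.image (span F {z}).mkQ) + 1) := by ring
            _ ≤ _ := Nat.mul_le_mul_left _ h2
        rw [Finset.card_erase_of_mem hz]
        omega
      obtain ⟨f, ⟨a, haA, hfa⟩, hsmall⟩ := hC F V A ρ d hAs hAK hAne hd hρ1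
        (by simpa [hρ, hκ, mul_assoc] using hnum1) (le_of_eq hAc) (by
          intro V' _ _ E' hE' hlt
          exact ih (rk F E') (by omega) V' E' hE' rfl)
      set C0 := A.filter (fun a => f a = 0) with hC0
      have hC0lt : rk F C0 < rk F A := by
        unfold rk
        apply Submodule.finrank_lt_finrank_of_lt
        refine lt_of_le_of_ne (Submodule.span_mono
          (by exact_mod_cast (Finset.filter_subset _ _))) ?_
        intro h
        have hle : span F (C0 : Set V) ≤ LinearMap.ker f := by
          rw [Submodule.span_le]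
          intro v hv
          have hv' : v ∈ C0 := by exact_mod_cast hv
          rw [hC0, Finset.mem_filter] at hv'
          exact hv'.2
        rw [h] at hle
        exact hfa (hle (Submodule.subset_span (by exact_mod_cast haA)))
      obtain ⟨C, h0C, hCA, hCr⟩ := exists_hyper A C0 (Finset.filter_subset _ _) hC0lt
      have hgrow := hG F V A C ρ hAs hAK hCA hCr (fun z hz _ => hex z hz)
      have hsub : A.filter (fun a => a ∉ span F (C : Set V)) ⊆
          A.filter (fun a => f a ≠ 0) := by
        intro v hv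
        rw [Finset.mem_filter] at hv ⊢
        refine ⟨hv.1, ?_⟩
        intro hfv
        apply hv.2
        apply Submodule.subset_span
        have : v ∈ C := h0C (by rw [hC0, Finset.mem_filter]; exact ⟨hv.1, hfv⟩)
        exact_mod_cast this
      have hcard : (A.filter (fun a => a ∉ span F (C : Set V))).card ≤ 8 * d * ρ ^ 2 :=
        (Finset.card_le_card hsub).trans hsmall
      have hlt : (A.filter (fun a => a ∉ span F (C : Set V))).card < q ^ k :=
        lt_of_le_of_lt hcard (by simpa [hρ, hκ] using hnum2)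
      have h5 : (A.filter (fun a => a ∉ span F (C : Set V))).card ^ κ < (q ^ k) ^ κ :=
        Nat.pow_lt_pow_left hlt (by omega)
      have h6 : (q ^ k) ^ κ = q ^ ρ := by rw [hρ, ← pow_mul]
      rw [h6] at h5
      exact absurd hgrow (not_le.2 h5)
  intro V _ _ E hE
  exact main _ V E hE rfl

end MPed7341
end

section
/-
MP_ed7341_co, module FROZ: translation to the form of the frozen statement.
-/
set_option autoImplicit false

namespace MPed7341

open Submodule Finset

namespace FrozM

/-- linear independence is not changed by nonzero scalars. -/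
theorem li_smul {F : Type} [Field F] {M : Type} [AddCommGroup M] [Module F M] {ι : Type}
    (u v : ι → M) (c : ι → F) (hc : ∀ i, c i ≠ 0) (h : ∀ i, v i = c i • u i) :
    LinearIndependent F v ↔ LinearIndependent F u := by
  have hv : v = (fun i => Units.mk0 (c i) (hc i)) • u := by
    funext i
    rw [h i]
    rfl
  rw [hv]
  constructor
  · intro hl
    have h2 := hl.units_smul (fun i => (Units.mk0 (c i) (hc i))⁻¹)
    have h3 : ((fun i => (Units.mk0 (c i) (hc i))⁻¹) • ((fun i => Units.mk0 (c i) (hc i)) • u)) = u := by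
      funext i
      exact inv_smul_smul (Units.mk0 (c i) (hc i)) (u i)
    rwa [h3] at h2
  · intro hl
    exact hl.units_smul _

/-- the linear map `x ↦ (∑ x_i w_i, ∑ x_i)`. -/
noncomputable def phi {F : Type} [Field F] {M : Type} [AddCommGroup M] [Module F M]
    (w : Fin 4 → M) : (Fin 4 → F) →ₗ[F] M × F :=
  LinearMap.prod (Fintype.linearCombination F w)
    (Fintype.linearCombination F (fun _ : Fin 4 => (1 : F)))

theorem phi_apply {F : Type} [Field F] {M : Type} [AddCommGroup M] [Module F M]
    (w : Fin 4 → M) (x : Fin 4 → F) : phi w x = (∑ i, x i • w i, ∑ i, x i) := by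
  simp [phi, Fintype.linearCombination_apply]

theorem phi_edge {F : Type} [Field F] {M : Type} [AddCommGroup M] [Module F M]
    (w : Fin 4 → M) (i j : Fin 4) :
    phi w ((Pi.single i (1 : F) : Fin 4 → F) - Pi.single j (1 : F)) = (w i - w j, 0) := by
  rw [phi_apply]
  ext
  · simp [sub_smul, Finset.sum_sub_distrib, Pi.single_apply]
  · simp

end FrozM

open FrozM in
theorem specFroz : SpecFroz := by
  intro F _ r S hno hK
  apply hno
  obtain ⟨C, v1, v2, v3, hC, hI, h1, h2, h3, h12, h23, h13⟩ := hK
  let W : Submodule F (Fin r → F) := span F (C : Set (Fin r → F))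
  let w : Fin 4 → (Fin r → F) := ![0, v1, v2, v3]
  -- the element of `S` for each edge
  have hedge : ∀ e : {p : Fin 4 × Fin 4 // p.1 < p.2}, ∃ g ∈ S, ∃ c : F, c ≠ 0 ∧
      W.mkQ g = c • (W.mkQ (w e.1.1) - W.mkQ (w e.1.2)) := by
    have key : ∀ v, Hit W S v → ∃ g ∈ S, ∃ c : F, c ≠ 0 ∧ W.mkQ g = c • W.mkQ v := by
      rintro v ⟨e, he, c, hc, hm⟩
      refine ⟨e, he, c, hc, ?_⟩
      rw [← map_smul]
      rw [← sub_eq_zero, ← map_sub]
      rw [mkQ_apply, Quotient.mk_eq_zero]
      exact hm
    have keyn : ∀ v, Hit W S v → ∃ g ∈ S, ∃ c : F, c ≠ 0 ∧ W.mkQ g = c • (- W.mkQ v) := by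
      intro v hv
      obtain ⟨g, hg, c, hc, h⟩ := key v hv
      exact ⟨g, hg, -c, neg_ne_zero.mpr hc, by rw [h, neg_smul_neg]⟩
    rintro ⟨⟨i, j⟩, hij⟩
    simp only at hij ⊢
    fin_cases i <;> fin_cases j <;> simp at hij
    · simpa [w] using keyn v1 h1
    · simpa [w] using keyn v2 h2
    · simpa [w] using keyn v3 h3
    · simpa [w] using key (v1 - v2) h12
    · simpa [w] using key (v1 - v3) h13
    · simpa [w] using key (v2 - v3) h23
  choose g hg c hc hgc using hedge
  refine ⟨C, g, hC, hg, ?_⟩
  intro T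
  -- injectivity of phi
  have hinj : Function.Injective (phi (F := F) (fun i => W.mkQ (w i))) := by
    rw [← LinearMap.ker_eq_bot, LinearMap.ker_eq_bot']
    intro x hx
    rw [phi_apply] at hx
    have hx1 := congrArg Prod.fst hx
    have hx2 := congrArg Prod.snd hx
    simp only [Prod.fst_zero, Prod.snd_zero] at hx1 hx2
    rw [Fin.sum_univ_four] at hx1 hx2
    have hm : x 1 • v1 + x 2 • v2 + x 3 • v3 ∈ W := by
      rw [← Quotient.mk_eq_zero, ← mkQ_apply]
      simpa [w] using hx1
    obtain ⟨e1, e2, e3⟩ := hI _ _ _ hm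
    funext i
    fin_cases i
    · simpa [e1, e2, e3] using hx2
    · exact e1
    · exact e2
    · exact e3
  have step1 : LinearIndependent F (T.domRestrict (fun e => W.mkQ (g e))) ↔
      LinearIndependent F (fun e : T => W.mkQ (w e.1.1.1) - W.mkQ (w e.1.1.2)) :=
    li_smul _ _ (fun e : T => c e.1) (fun e => hc e.1) (fun e => hgc e.1)
  have step2 : LinearIndependent F (fun e : T => W.mkQ (w e.1.1.1) - W.mkQ (w e.1.1.2)) ↔
      LinearIndependent F (fun e : T => (phi (F := F) (fun i => W.mkQ (w i)))
        ((Pi.single e.1.1.1 (1 : F) : Fin 4 → F) - Pi.single e.1.1.2 (1 : F))) := by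
    have e1 : (fun e : T => (phi (F := F) (fun i => W.mkQ (w i)))
        ((Pi.single e.1.1.1 (1 : F) : Fin 4 → F) - Pi.single e.1.1.2 (1 : F))) =
        (LinearMap.inl F _ F) ∘ (fun e : T => W.mkQ (w e.1.1.1) - W.mkQ (w e.1.1.2)) := by
      funext e
      rw [phi_edge]
      rfl
    rw [e1]
    exact (LinearMap.linearIndependent_iff _
      (LinearMap.ker_eq_bot.mpr LinearMap.inl_injective)).symm
  have step3 : LinearIndependent F (fun e : T => (phi (F := F) (fun i => W.mkQ (w i)))
        ((Pi.single e.1.1.1 (1 : F) : Fin 4 → F) - Pi.single e.1.1.2 (1 : F))) ↔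
      LinearIndependent F (T.domRestrict
            (fun e => ((Pi.single e.1.1 (1 : F) : Fin 4 → F) -
              (Pi.single e.1.2 (1 : F) : Fin 4 → F)))) :=
    LinearMap.linearIndependent_iff _ (LinearMap.ker_eq_bot.mpr hinj)
  exact step1.trans (step2.trans step3)

end MPed7341
end

section
/-
MP_ed7341_co, module GROW: exponential growth of cocircuits (assumes the crossing lemma).
-/
set_option autoImplicit false

namespace MPed7341

open Submodule Finset

theorem pow_step (m : ℕ) : ∀ a : ℕ, a ≤ m → (m + 1) ^ a ≤ (a + 1) * m ^ a := by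
  intro a
  induction a with
  | zero => intro _; simp
  | succ a ih =>
    intro h
    have h1 := ih (by omega)
    calc (m + 1) ^ (a + 1) = (m + 1) ^ a * (m + 1) := pow_succ _ _
      _ ≤ ((a + 1) * m ^ a) * (m + 1) := Nat.mul_le_mul_right _ h1
      _ = ((a + 1) * (m + 1)) * m ^ a := by ring
      _ ≤ ((a + 1 + 1) * m) * m ^ a := by
          apply Nat.mul_le_mul_right
          nlinarith
      _ = (a + 1 + 1) * m ^ (a + 1) := by ring

theorem pow_swap (a : ℕ) : ∀ b : ℕ, a ≤ b → (b + 1) ^ a ≤ (a + 1) ^ b := by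
  intro b hb
  induction b, hb using Nat.le_induction with
  | base => exact le_refl _
  | succ b hb ih =>
    calc (b + 1 + 1) ^ a ≤ (a + 1) * (b + 1) ^ a := pow_step (b + 1) a (by omega)
      _ ≤ (a + 1) * (a + 1) ^ b := Nat.mul_le_mul_left _ ih
      _ = (a + 1) ^ (b + 1) := by ring

theorem num_grow (q t : ℕ) (h2 : 2 ≤ t) (hq : t ≤ q) :
    q ^ (t.choose 2) ≤ t ^ (q * (q - 1) / 2) := by
  have h1 : q ^ (t - 1) ≤ t ^ (q - 1) := by
    have := pow_swap (t - 1) (q - 1) (by omega)
    rwa [Nat.sub_add_cancel (by omega), Nat.sub_add_cancel (by omega)] at this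
  have h3 : q ^ (t * (t - 1)) ≤ t ^ (q * (q - 1)) := by
    calc q ^ (t * (t - 1)) = (q ^ (t - 1)) ^ t := by rw [← pow_mul, mul_comm]
      _ ≤ (t ^ (q - 1)) ^ t := Nat.pow_le_pow_left h1 _
      _ ≤ (t ^ (q - 1)) ^ q := Nat.pow_le_pow_right (by positivity) hq
      _ = t ^ (q * (q - 1)) := by rw [← pow_mul, mul_comm]
  have e1 : t.choose 2 * 2 = t * (t - 1) := by
    rw [Nat.choose_two_right]
    exact Nat.div_mul_cancel (Nat.even_mul_pred_self t).two_dvd
  have e2 : (q * (q - 1) / 2) * 2 = q * (q - 1) :=
    Nat.div_mul_cancel (Nat.even_mul_pred_self q).two_dvd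
  rw [← e1, ← e2, pow_mul, pow_mul] at h3
  exact (Nat.pow_le_pow_iff_left (by norm_num)).1 h3

section

variable {F : Type} [Field F] {V : Type} [AddCommGroup V] [Module F V]

theorem mem_sup_comm_of {W : Submodule F V} {u c : V} (h : u ∈ W ⊔ span F {c}) (hu : u ∉ W) :
    c ∈ W ⊔ span F {u} := by
  rw [sup_eq_of_mem h hu]
  exact mem_sup_right (mem_span_singleton_self c)

/-- a hyperplane of `span C` spanned by elements of `C`, avoiding `u`. -/
theorem exists_hyper (C : Finset V) (u : V) (hu : u ∈ span F (C : Set V)) (hu0 : u ≠ 0) :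
    ∃ D : Finset V, D ⊆ C ∧ u ∉ span F (D : Set V) ∧
      span F (C : Set V) = span F (D : Set V) ⊔ span F {u} := by
  classical
  set P : Finset (Finset V) := C.powerset.filter (fun D : Finset V => u ∉ span F (D : Set V)) with hP
  have hne : P.Nonempty := by
    refine ⟨∅, ?_⟩
    rw [hP, Finset.mem_filter]
    refine ⟨Finset.empty_mem_powerset _, ?_⟩
    rw [Finset.coe_empty, span_empty, mem_bot]
    exact hu0
  obtain ⟨D, hD, hmax⟩ := Finset.exists_max_image P Finset.card hne
  rw [hP, Finset.mem_filter, Finset.mem_powerset] at hD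
  refine ⟨D, hD.1, hD.2, ?_⟩
  apply le_antisymm
  · rw [span_le]
    intro c hc
    by_contra hc'
    have hcD : c ∉ D := fun h => hc' (mem_sup_left (subset_span h))
    have h1 : u ∉ span F ((insert c D : Finset V) : Set V) := by
      intro h
      rw [Finset.coe_insert, span_insert, sup_comm] at h
      exact hc' (mem_sup_comm_of h hD.2)
    have h2 : insert c D ∈ P := by
      rw [hP, Finset.mem_filter, Finset.mem_powerset]
      exact ⟨Finset.insert_subset hc hD.1, h1⟩
    have h3 := hmax _ h2
    rw [Finset.card_insert_of_notMem hcD] at h3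
    omega
  · refine sup_le (span_mono hD.1) ?_
    rw [span_singleton_le_iff_mem]
    exact hu

theorem finrank_sup_singleton {W : Submodule F V} [FiniteDimensional F W] {u : V} (hu : u ∉ W) :
    Module.finrank F (W ⊔ span F {u} : Submodule F V) = Module.finrank F W + 1 := by
  have hu0 : u ≠ 0 := fun h => hu (h ▸ W.zero_mem)
  have h1 := Submodule.finrank_sup_add_finrank_inf_eq W (span F {u})
  have h2 : W ⊓ span F {u} = ⊥ := by
    rw [eq_bot_iff]
    intro v hv
    obtain ⟨hv1, hv2⟩ := hv
    obtain ⟨c, rfl⟩ := mem_span_singleton.1 hv2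
    rw [mem_bot]
    by_contra hc
    have hc0 : c ≠ 0 := fun h => hc (by rw [h, zero_smul])
    apply hu
    have := W.smul_mem c⁻¹ hv1
    rwa [smul_smul, inv_mul_cancel₀ hc0, one_smul] at this
  rw [h2, finrank_bot, finrank_span_singleton hu0, add_zero] at h1
  exact h1

theorem eq_sup_of_codim {W U : Submodule F V} [FiniteDimensional F U] (hWU : W ≤ U)
    (h : Module.finrank F U = Module.finrank F W + 1) {y : V} (hy : y ∈ U) (hyW : y ∉ W) :
    U = W ⊔ span F {y} := by
  have : FiniteDimensional F W := Submodule.finiteDimensional_of_le hWU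
  symm
  apply Submodule.eq_of_le_of_finrank_eq
  · exact sup_le hWU ((span_singleton_le_iff_mem _ _).2 hy)
  · rw [finrank_sup_singleton hyW, h]

end

open Classical in
theorem grow_step {F : Type} [Field F] [Fintype F] {V : Type} [AddCommGroup V] [Module F V]
    (hcross : SpecCross) (n : ℕ) :
    ∀ (A C : Finset V) (ξ : ℕ), rk F C = n → Simple F A → ¬ HasK4 F A → C ⊆ A →
    rk F A = rk F C + 1 →
    (∀ z ∈ A, z ∉ span F (C : Set V) → ncl (span F {z}) (A.erase z) + ξ ≤ (A.erase z).card) →
    Fintype.card F ^ ξ ≤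
      ((A.filter (fun a => a ∉ span F (C : Set V))).card) ^
        (Fintype.card F * (Fintype.card F - 1) / 2) := by
  induction n using Nat.strong_induction_on with
  | _ n ih =>
  intro A C ξ hn hS hK hCA hrk hex
  set q := Fintype.card F with hq
  set W := span F (C : Set V) with hW
  set S := A.filter (fun a => a ∉ W) with hSdef
  have hWU : W ≤ span F (A : Set V) := span_mono hCA
  -- S nonempty
  have hSne : S.Nonempty := by
    by_contra hcon
    rw [Finset.not_nonempty_iff_eq_empty] at hcon
    have : span F (A : Set V) ≤ W := by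
      rw [span_le]
      intro a ha
      by_contra haW
      have : a ∈ S := Finset.mem_filter.2 ⟨ha, haW⟩
      rw [hcon] at this
      exact absurd this (Finset.notMem_empty _)
    have h1 : span F (A : Set V) = W := le_antisymm this hWU
    unfold rk at hrk
    rw [h1] at hrk
    exact absurd hrk (by rw [hW]; omega)
  rcases Nat.eq_zero_or_pos ξ with hξ | hξ
  · rw [hξ, pow_zero]
    exact Nat.one_le_pow _ _ (Finset.card_pos.2 hSne)
  obtain ⟨z, hz⟩ := hSne
  have hzA : z ∈ A := (Finset.mem_filter.1 hz).1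
  have hzW : z ∉ W := (Finset.mem_filter.1 hz).2
  -- second element
  obtain ⟨y, hyA, hyW, hyz⟩ : ∃ y ∈ A, y ∉ W ∧ y ≠ z := by
    have h1 := hex z hzA hzW
    have h2 : ((A.erase z).image (fun v => span F {z} ⊔ span F {v})).card <
        (A.erase z).card := by
      have : ((A.erase z).image (fun v => span F {z} ⊔ span F {v})).card =
        ncl (span F {z}) (A.erase z) := rfl
      omega
    obtain ⟨a, ha, b, hb, hab, hLab⟩ := Finset.exists_ne_map_eq_of_card_lt_of_maps_to h2
      (fun v hv => Finset.mem_image_of_mem (fun v => span F {z} ⊔ span F {v}) hv)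
    rw [Finset.mem_erase] at ha hb
    by_cases haW : a ∈ W
    · by_cases hbW : b ∈ W
      · exfalso
        have h3 : b ∈ span F {z} ⊔ span F {a} := by
          have hLab' : span F {z} ⊔ span F {a} = span F {z} ⊔ span F {b} := hLab
          rw [hLab']
          exact mem_sup_right (mem_span_singleton_self b)
        obtain ⟨α, β, hαβ⟩ := mem_line.1 h3
        have hα : α = 0 := by
          by_contra hα
          apply hzW
          have h4 : α • z = b - β • a := by rw [hαβ]; abel
          have h5 : α • z ∈ W := by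
            rw [h4]
            exact W.sub_mem hbW (W.smul_mem _ haW)
          have := W.smul_mem α⁻¹ h5
          rwa [smul_smul, inv_mul_cancel₀ hα, one_smul] at this
        rw [hα, zero_smul, zero_add] at hαβ
        exact hab (hS.2 a ha.2 b hb.2 β hαβ).symm
      · exact ⟨b, hb.2, hbW, hb.1⟩
    · exact ⟨a, ha.2, haW, ha.1⟩
  have hyS : y ∈ S := Finset.mem_filter.2 ⟨hyA, hyW⟩
  have hUy : span F (A : Set V) = W ⊔ span F {y} :=
    eq_sup_of_codim hWU hrk (subset_span hyA) hyW
  obtain ⟨c, hc⟩ : ∃ c : F, z - c • y ∈ W := by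
    rw [← mem_sup_singleton, ← hUy]
    exact subset_span hzA
  set u := z - c • y with hu
  have hu0 : u ≠ 0 := by
    intro h
    rw [hu, sub_eq_zero] at h
    exact hyz (hS.2 y hyA z hzA c h).symm
  obtain ⟨D, hDC, huD, hCD⟩ := exists_hyper C u hc hu0
  set W2 := span F (D : Set V) with hW2
  have hW2W : W2 ≤ W := span_mono hDC
  have hWeq : W = W2 ⊔ span F {u} := hCD
  have : FiniteDimensional F W2 := FiniteDimensional.span_of_finite F D.finite_toSet
  have hrkD : rk F C = rk F D + 1 := by
    unfold rk
    rw [← hW, hWeq]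
    exact finrank_sup_singleton huD
  -- classes of S modulo W2
  set cl : V → Submodule F V := fun v => W2 ⊔ span F {v} with hcl
  set t := ncl W2 S with ht
  have htdef : t = (S.image cl).card := rfl
  have hSW2 : ∀ s ∈ S, s ∉ W2 := fun s hs h => (Finset.mem_filter.1 hs).2 (hW2W h)
  have hclW : ∀ b, b ∈ W → b ∉ W2 → cl b = W := by
    intro b hb hb2
    rw [hWeq] at hb
    rw [hWeq]
    exact sup_eq_of_mem hb hb2
  -- t >= 2
  have ht2 : 2 ≤ t := by
    rw [htdef]
    have : 1 < (S.image cl).card := by
      rw [Finset.one_lt_card]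
      refine ⟨cl z, Finset.mem_image_of_mem _ hz, cl y, Finset.mem_image_of_mem _ hyS, ?_⟩
      intro h
      have h1 : z ∈ W2 ⊔ span F {y} := by
        have h' : W2 ⊔ span F {z} = W2 ⊔ span F {y} := h
        rw [← h']
        exact mem_sup_right (mem_span_singleton_self z)
      obtain ⟨c', hc'⟩ := mem_sup_singleton.1 h1
      have h2 : (c' - c) • y ∈ W := by
        have : (c' - c) • y = u - (z - c' • y) := by rw [hu]; module
        rw [this]
        exact W.sub_mem hc (hW2W hc')
      have h3 : c' = c := by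
        by_contra hne
        apply hyW
        have := W.smul_mem (c' - c)⁻¹ h2
        rwa [smul_smul, inv_mul_cancel₀ (sub_ne_zero.2 hne), one_smul] at this
      rw [h3] at hc'
      exact huD hc'
    omega
  -- t <= q
  have htq : t ≤ q := by
    rw [htdef]
    have hsub : S.image cl ⊆ (Finset.univ : Finset F).image (fun α => cl (y + α • u)) := by
      intro l hl
      obtain ⟨s, hs, rfl⟩ := Finset.mem_image.1 hl
      have hsA := (Finset.mem_filter.1 hs).1
      have hsW := (Finset.mem_filter.1 hs).2
      have h1 : s ∈ W ⊔ span F {y} := by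
        rw [← hUy]
        exact subset_span hsA
      obtain ⟨β, hβ⟩ := mem_sup_singleton.1 h1
      rw [hWeq] at hβ
      obtain ⟨α, hα⟩ := mem_sup_singleton.1 hβ
      have hβ0 : β ≠ 0 := by
        intro h
        apply hsW
        rw [h, zero_smul, sub_zero] at hα
        have : s = (s - α • u) + α • u := by abel
        rw [this]
        exact W.add_mem (hW2W hα) (W.smul_mem _ hc)
      refine Finset.mem_image.2 ⟨β⁻¹ * α, Finset.mem_univ _, ?_⟩
      have hmem : s ∈ W2 ⊔ span F {y + (β⁻¹ * α) • u} := by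
        rw [mem_sup_singleton]
        refine ⟨β, ?_⟩
        have : s - β • (y + (β⁻¹ * α) • u) = s - β • y - α • u := by
          rw [smul_add, smul_smul, ← mul_assoc, mul_inv_cancel₀ hβ0, one_mul]
          abel
        rw [this]
        exact hα
      exact (sup_eq_of_mem hmem (hSW2 s hs)).symm
    calc (S.image cl).card ≤ ((Finset.univ : Finset F).image (fun α => cl (y + α • u))).card :=
          Finset.card_le_card hsub
      _ ≤ (Finset.univ : Finset F).card := Finset.card_image_le
      _ = q := rfl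
  -- the fibres
  have hfib : ∀ l ∈ S.image cl, q ^ (ξ - t.choose 2) ≤
      ((S.filter (fun s => cl s = l)).card) ^ (q * (q - 1) / 2) := by
    intro l hl
    obtain ⟨s, hs, rfl⟩ := Finset.mem_image.1 hl
    have hsA := (Finset.mem_filter.1 hs).1
    have hsW := (Finset.mem_filter.1 hs).2
    have hsW2 := hSW2 s hs
    set AP := A.filter (fun a => a ∈ cl s) with hAP
    have hAPA : AP ⊆ A := Finset.filter_subset _ _
    have hDAP : D ⊆ AP := by
      intro v hv
      rw [hAP, Finset.mem_filter]
      exact ⟨hCA (hDC hv), mem_sup_left (subset_span hv)⟩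
    have hsAP : s ∈ AP := by
      rw [hAP, Finset.mem_filter]
      exact ⟨hsA, mem_sup_right (mem_span_singleton_self s)⟩
    have hspanAP : span F (AP : Set V) = cl s := by
      apply le_antisymm
      · rw [span_le]
        intro v hv
        exact (Finset.mem_filter.1 hv).2
      · refine sup_le (span_mono hDAP) ?_
        rw [span_singleton_le_iff_mem]
        exact subset_span hsAP
    have hrkAP : rk F AP = rk F D + 1 := by
      unfold rk
      rw [hspanAP]
      exact finrank_sup_singleton hsW2
    have hSAP : Simple F AP :=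
      ⟨fun h => hS.1 (hAPA h), fun x hx y hy c h => hS.2 x (hAPA hx) y (hAPA hy) c h⟩
    have hKAP : ¬ HasK4 F AP := by
      rintro ⟨C1, v1, v2, v3, h1, h2, h3, h4, h5, h6, h7, h8⟩
      have hmono : ∀ (W' : Submodule F V) (v : V), Hit W' AP v → Hit W' A v := by
        rintro W' v ⟨e, he, r⟩
        exact ⟨e, hAPA he, r⟩
      exact hK ⟨C1, v1, v2, v3, h1.trans hAPA, h2, hmono _ _ h3, hmono _ _ h4, hmono _ _ h5,
        hmono _ _ h6, hmono _ _ h7, hmono _ _ h8⟩
    have hfilt : AP.filter (fun a => a ∉ W2) = S.filter (fun a => cl a = cl s) := by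
      ext a
      rw [Finset.mem_filter, Finset.mem_filter, Finset.mem_filter, Finset.mem_filter]
      constructor
      · rintro ⟨⟨h1, h2⟩, h3⟩
        have h4 : cl a = cl s := sup_eq_of_mem h2 h3
        refine ⟨⟨h1, ?_⟩, h4⟩
        intro haW
        apply hsW
        have h5 : s ∈ cl a := by
          rw [h4]
          exact mem_sup_right (mem_span_singleton_self s)
        have h6 : cl a ≤ W := sup_le hW2W ((span_singleton_le_iff_mem _ _).2 haW)
        exact h6 h5
      · rintro ⟨⟨h1, h2⟩, h3⟩
        refine ⟨⟨h1, ?_⟩, fun h => h2 (hW2W h)⟩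
        rw [← h3]
        exact mem_sup_right (mem_span_singleton_self a)
    have hrec := ih (rk F D) (by omega) AP D (ξ - t.choose 2) rfl hSAP hKAP hDAP hrkAP ?_
    · rw [← hfilt]
      exact hrec
    · -- excess in AP
      intro z' hz'AP hz'W2
      have hz'A := hAPA hz'AP
      have hz'cl : z' ∈ cl s := (Finset.mem_filter.1 hz'AP).2
      have hclz' : cl z' = cl s := sup_eq_of_mem hz'cl hz'W2
      have hz'W : z' ∉ W := by
        intro h
        apply hsW
        have h5 : s ∈ cl z' := by
          rw [hclz']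
          exact mem_sup_right (mem_span_singleton_self s)
        have h6 : cl z' ≤ W := sup_le hW2W ((span_singleton_le_iff_mem _ _).2 h)
        exact h6 h5
      have hz'S : z' ∈ S := Finset.mem_filter.2 ⟨hz'A, hz'W⟩
      have h1 := hex z' hz'A hz'W
      have h2 := hcross F V A D z' hS hK (hDC.trans hCA) hz'A hz'W2
      set B := A.filter (fun e => e ∉ span F (D : Set V) ⊔ span F {z'}) with hB
      have hdisj : Disjoint (AP.erase z') B := by
        rw [Finset.disjoint_left]
        intro v hv hv'
        rw [Finset.mem_erase, hAP, Finset.mem_filter] at hv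
        rw [hB, Finset.mem_filter] at hv'
        apply hv'.2
        rw [show span F (D : Set V) ⊔ span F {z'} = cl s from hclz']
        exact hv.2.2
      have hunion : A.erase z' = AP.erase z' ∪ B := by
        ext v
        rw [Finset.mem_union, Finset.mem_erase, Finset.mem_erase, hAP, Finset.mem_filter, hB,
          Finset.mem_filter, show span F (D : Set V) ⊔ span F {z'} = cl s from hclz']
        constructor
        · rintro ⟨hv1, hv2⟩
          by_cases hv3 : v ∈ cl s
          · exact Or.inl ⟨hv1, hv2, hv3⟩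
          · exact Or.inr ⟨hv2, hv3⟩
        · rintro (⟨hv1, hv2, hv3⟩ | ⟨hv2, hv3⟩)
          · exact ⟨hv1, hv2⟩
          · refine ⟨?_, hv2⟩
            rintro rfl
            exact hv3 hz'cl
      have hcard : (A.erase z').card = (AP.erase z').card + B.card := by
        rw [hunion, Finset.card_union_of_disjoint hdisj]
      have hlines : ncl (span F {z'}) (AP.erase z') + ncl (span F {z'}) B ≤
          ncl (span F {z'}) (A.erase z') := by
        unfold ncl
        rw [hunion, Finset.image_union, Finset.card_union_of_disjoint]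
        rw [Finset.disjoint_left]
        intro l hl hl'
        obtain ⟨a, ha, rfl⟩ := Finset.mem_image.1 hl
        obtain ⟨b, hb, hba⟩ := Finset.mem_image.1 hl'
        rw [Finset.mem_erase, hAP, Finset.mem_filter] at ha
        rw [hB, Finset.mem_filter] at hb
        apply hb.2
        rw [show span F (D : Set V) ⊔ span F {z'} = cl s from hclz']
        have h5 : b ∈ span F {z'} ⊔ span F {a} := by
          have hba' : span F {z'} ⊔ span F {b} = span F {z'} ⊔ span F {a} := hba
          rw [← hba']
          exact mem_sup_right (mem_span_singleton_self b)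
        have h6 : span F {z'} ⊔ span F {a} ≤ cl s :=
          sup_le ((span_singleton_le_iff_mem _ _).2 hz'cl)
            ((span_singleton_le_iff_mem _ _).2 ha.2.2)
        exact h6 h5
      have hnclB : ncl (span F (D : Set V)) B ≤ t := by
        have hsub : B.image cl ⊆ insert W ((S.image cl).erase (cl z')) := by
          intro l hl
          obtain ⟨b, hb, rfl⟩ := Finset.mem_image.1 hl
          rw [hB, Finset.mem_filter] at hb
          have hbW2 : b ∉ W2 := fun h => hb.2 (mem_sup_left h)
          by_cases hbW : b ∈ W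
          · rw [hclW b hbW hbW2]
            exact Finset.mem_insert_self _ _
          · apply Finset.mem_insert_of_mem
            rw [Finset.mem_erase]
            refine ⟨?_, Finset.mem_image_of_mem _ (Finset.mem_filter.2 ⟨hb.1, hbW⟩)⟩
            intro h
            apply hb.2
            have h' : W2 ⊔ span F {b} = W2 ⊔ span F {z'} := h
            rw [← hW2, ← h']
            exact mem_sup_right (mem_span_singleton_self b)
        have h5 : (B.image cl).card ≤ ((S.image cl).erase (cl z')).card + 1 :=
          (Finset.card_le_card hsub).trans (Finset.card_insert_le _ _)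
        rw [Finset.card_erase_of_mem (Finset.mem_image_of_mem _ hz'S)] at h5
        have h6 : 0 < (S.image cl).card :=
          Finset.card_pos.2 ⟨_, Finset.mem_image_of_mem _ hz'S⟩
        have h7 : ncl (span F (D : Set V)) B = (B.image cl).card := rfl
        omega
      have hchoose : (ncl (span F (D : Set V)) B).choose 2 ≤ t.choose 2 :=
        Nat.choose_le_choose 2 hnclB
      have htriv : ncl (span F {z'}) (AP.erase z') ≤ (AP.erase z').card := Finset.card_image_le
      omega
  -- conclusion
  have himne : (S.image cl).Nonempty := ⟨_, Finset.mem_image_of_mem cl hz⟩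
  obtain ⟨l0, hl0, hmin⟩ := Finset.exists_min_image (S.image cl)
    (fun l => (S.filter (fun s => cl s = l)).card) himne
  have hsum : t * (S.filter (fun s => cl s = l0)).card ≤ S.card := by
    rw [htdef, Finset.card_eq_sum_card_image cl S, ← smul_eq_mul]
    exact Finset.card_nsmul_le_sum _ _ _ hmin
  calc q ^ ξ ≤ q ^ (t.choose 2 + (ξ - t.choose 2)) :=
        Nat.pow_le_pow_right (by rw [hq]; exact Fintype.card_pos) (by omega)
    _ = q ^ (t.choose 2) * q ^ (ξ - t.choose 2) := pow_add _ _ _
    _ ≤ t ^ (q * (q - 1) / 2) *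
        ((S.filter (fun s => cl s = l0)).card) ^ (q * (q - 1) / 2) :=
        Nat.mul_le_mul (num_grow q t ht2 htq) (hfib l0 hl0)
    _ = (t * (S.filter (fun s => cl s = l0)).card) ^ (q * (q - 1) / 2) := (mul_pow _ _ _).symm
    _ ≤ S.card ^ (q * (q - 1) / 2) := Nat.pow_le_pow_left hsum _

theorem specGrow : SpecGrow := by
  intro F _ _ V _ _ A C ξ hS hK hCA hrk hex
  exact grow_step specCross _ A C ξ rfl hS hK hCA hrk hex

end MPed7341
end

section
/-!
# MP_ed7341_co : module LEMMAV
-/
set_option autoImplicit false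

namespace MPed7341

open Finset

namespace LemmaV

set_option linter.unusedSectionVars false

variable {ι K : Type} [Fintype ι] [DecidableEq ι] [DecidableEq K] [Zero K]

/-- forget the coordinate `n` -/
def del (n : ι) (f : ι → K) : ι → K := mask {n}ᶜ f

theorem del_apply (n : ι) (f : ι → K) (i : ι) : del n f i = if i = n then 0 else f i := by
  unfold del mask
  by_cases h : i = n <;> simp [h]

theorem del_comm (n i : ι) (f : ι → K) : del n (del i f) = del i (del n f) := by
  funext x
  simp only [del_apply]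
  split_ifs <;> rfl

theorem mask_del {n : ι} {J : Finset ι} (hn : n ∉ J) (f : ι → K) :
    mask J (del n f) = mask J f := by
  funext x
  unfold mask
  by_cases hx : x ∈ J
  · have : x ≠ n := fun h => hn (h ▸ hx)
    simp [hx, del_apply, this]
  · simp [hx]

theorem del_mask_insert {n : ι} {J : Finset ι} (hn : n ∉ J) (f : ι → K) :
    del n (mask (insert n J) f) = mask J f := by
  funext x
  rw [del_apply]
  unfold mask
  by_cases hx : x = n
  · subst hx
    simp [hn]
  · simp [hx]

theorem eq_of_del {n i : ι} (hin : i ≠ n) {g g' : ι → K} (h1 : del n g = del n g')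
    (h2 : del i g = del i g') : g = g' := by
  funext x
  by_cases hx : x = n
  · have := congrFun h2 x
    rw [del_apply, del_apply, if_neg, if_neg] at this
    · exact this
    · rw [hx]; exact hin.symm
    · rw [hx]; exact hin.symm
  · have := congrFun h1 x
    rw [del_apply, del_apply, if_neg hx, if_neg hx] at this
    exact this

/-- size of a fibre -/
def NN (A : Finset (ι → K)) (n : ι) (f : ι → K) : ℕ := (A.filter (fun g => del n g = f)).card

/-- layers -/
def BB (A : Finset (ι → K)) (n : ι) (j : ℕ) : Finset (ι → K) :=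
  (A.image (del n)).filter (fun f => j ≤ NN A n f)

theorem NN_le (A : Finset (ι → K)) (n : ι) (f : ι → K) : NN A n f ≤ A.card :=
  Finset.card_filter_le _ _

theorem card_Icc_filter_le {M N : ℕ} (h : N ≤ M) : ((Finset.Icc 1 M).filter (· ≤ N)).card = N := by
  have : (Finset.Icc 1 M).filter (· ≤ N) = Finset.Icc 1 N := by
    ext j
    simp only [Finset.mem_filter, Finset.mem_Icc]
    omega
  rw [this]
  simp

theorem sum_BB (A : Finset (ι → K)) (n : ι) :
    A.card = ∑ j ∈ Finset.Icc 1 A.card, (BB A n j).card := by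
  unfold BB
  simp only [Finset.card_filter]
  rw [Finset.sum_comm]
  have h1 : A.card = ∑ f ∈ A.image (del n), NN A n f :=
    Finset.card_eq_sum_card_image (del n) A
  conv_lhs => rw [h1]
  refine Finset.sum_congr rfl fun f _ => ?_
  rw [← Finset.card_filter, card_Icc_filter_le (NN_le A n f)]

theorem BB_one (A : Finset (ι → K)) (n : ι) : BB A n 1 = A.image (del n) := by
  unfold BB
  rw [Finset.filter_eq_self]
  intro f hf
  obtain ⟨g, hg, hgf⟩ := Finset.mem_image.1 hf
  exact Finset.card_pos.2 ⟨g, Finset.mem_filter.2 ⟨hg, hgf⟩⟩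

theorem sum_image_BB (A : Finset (ι → K)) {n i : ι} (hin : i ≠ n) :
    ∑ j ∈ Finset.Icc 1 A.card, ((BB A n j).image (del i)).card ≤ (A.image (del i)).card := by
  set Q := A.image (del i) with hQ
  set R := Q.image (del n) with hR
  have hsub : ∀ j, (BB A n j).image (del i) ⊆ R := by
    intro j h hh
    obtain ⟨f, hf, rfl⟩ := Finset.mem_image.1 hh
    obtain ⟨g, hg, rfl⟩ := Finset.mem_image.1 (Finset.mem_filter.1 hf).1
    rw [hR, Finset.mem_image]
    exact ⟨del i g, Finset.mem_image_of_mem _ hg, del_comm n i g⟩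
  have h1 : ∀ j, ((BB A n j).image (del i)).card =
      ∑ h ∈ R, if h ∈ (BB A n j).image (del i) then 1 else 0 := by
    intro j
    rw [← Finset.card_filter]
    congr 1
    ext h
    rw [Finset.mem_filter]
    exact ⟨fun hh => ⟨hsub j hh, hh⟩, fun hh => hh.2⟩
  rw [Finset.sum_congr rfl fun j _ => h1 j, Finset.sum_comm,
    Finset.card_eq_sum_card_image (del n) Q]
  refine Finset.sum_le_sum fun h _ => ?_
  rw [← Finset.card_filter]
  have h2 : (Finset.Icc 1 A.card).filter (fun j => h ∈ (BB A n j).image (del i)) ⊆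
      Finset.Icc 1 (Q.filter (fun q => del n q = h)).card := by
    intro j hj
    rw [Finset.mem_filter, Finset.mem_Icc] at hj
    rw [Finset.mem_Icc]
    refine ⟨hj.1.1, ?_⟩
    obtain ⟨f, hf, hfh⟩ := Finset.mem_image.1 hj.2
    have h3 := (Finset.mem_filter.1 hf).2
    refine h3.trans ?_
    unfold NN
    refine Finset.card_le_card_of_injOn (del i) ?_ ?_
    · intro g hg
      rw [Finset.mem_coe, Finset.mem_filter] at hg
      rw [Finset.mem_coe, Finset.mem_filter]
      refine ⟨Finset.mem_image_of_mem _ hg.1, ?_⟩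
      rw [del_comm, hg.2, hfh]
    · intro g hg g' hg' hgg
      rw [Finset.mem_coe, Finset.mem_filter] at hg hg'
      exact eq_of_del hin (hg.2.trans hg'.2.symm) hgg
  refine (Finset.card_le_card h2).trans ?_
  simp

theorem two_mul_BB (A : Finset (ι → K)) {n : ι} {J : Finset ι} (hn : n ∉ J) {j : ℕ}
    (hj : 2 ≤ j) :
    2 * ((BB A n j).image (mask J)).card ≤ (A.image (mask (insert n J))).card := by
  set s := (A.image (mask (insert n J))).filter (fun q => del n q ∈ (BB A n j).image (mask J))
    with hs
  have h1 : 2 * ((BB A n j).image (mask J)).card ≤ s.card := by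
    refine Finset.mul_card_image_le_card_of_maps_to (f := del n) ?_ 2 ?_
    · intro q hq
      exact (Finset.mem_filter.1 hq).2
    · intro h hh
      obtain ⟨f, hf, rfl⟩ := Finset.mem_image.1 hh
      have h2 : 1 < NN A n f := by
        have := (Finset.mem_filter.1 hf).2
        omega
      obtain ⟨g, hg, g', hg', hne⟩ := Finset.one_lt_card.1 h2
      rw [Finset.mem_filter] at hg hg'
      have h3 : ∀ g ∈ A, del n g = f → mask (insert n J) g ∈
          s.filter (fun q => del n q = mask J f) := by
        intro g hg hgf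
        have e : del n (mask (insert n J) g) = mask J f := by
          rw [del_mask_insert hn, ← hgf, mask_del hn]
        rw [Finset.mem_filter, hs, Finset.mem_filter]
        refine ⟨⟨Finset.mem_image_of_mem _ hg, ?_⟩, e⟩
        rw [e]
        exact hh
      have h4 : mask (insert n J) g ≠ mask (insert n J) g' := by
        intro e
        apply hne
        funext x
        by_cases hx : x = n
        · have := congrFun e x
          unfold mask at this
          simpa [hx] using this
        · have := congrFun (hg.2.trans hg'.2.symm) x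
          rw [del_apply, del_apply, if_neg hx, if_neg hx] at this
          exact this
      exact Finset.one_lt_card.2 ⟨_, h3 g hg.1 hg.2, _, h3 g' hg'.1 hg'.2, h4⟩
  exact h1.trans (Finset.card_filter_le _ _)

theorem main (I : Finset ι) : ∀ (d : ℕ) (A : Finset (ι → K)),
    (∀ f ∈ A, ∀ i, i ∉ I → f i = 0) →
    (∀ J ⊆ I, J.card = d + 1 → (A.image (mask J)).card < 2 ^ (d + 1)) →
    I.card * A.card ≤ d * A.card + ∑ i ∈ I, (A.image (del i)).card := by
  induction I using Finset.induction_on with
  | empty => intro d A _ _; simp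
  | insert n I hn ih =>
    intro d A hA hP
    have hsupp : ∀ j, ∀ f ∈ BB A n j, ∀ i, i ∉ I → f i = 0 := by
      intro j f hf i hi
      obtain ⟨g, hg, rfl⟩ := Finset.mem_image.1 (Finset.mem_filter.1 hf).1
      rw [del_apply]
      by_cases hin : i = n
      · rw [if_pos hin]
      · rw [if_neg hin]
        refine hA g hg i ?_
        rw [Finset.mem_insert]
        tauto
    rcases d with _ | d
    · -- at most one element
      have h1 : A.card ≤ 1 := by
        rw [Finset.card_le_one]
        intro f hf g hg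
        funext x
        by_cases hx : x ∈ insert n I
        · have h2 := hP {x} (Finset.singleton_subset_iff.2 hx) (by simp)
          have h3 : (A.image (mask {x})).card ≤ 1 := by
            simp only [zero_add, pow_one] at h2
            omega
          rw [Finset.card_le_one] at h3
          have h4 := congrFun (h3 _ (Finset.mem_image_of_mem _ hf) _
            (Finset.mem_image_of_mem _ hg)) x
          simpa [mask] using h4
        · rw [hA f hf x hx, hA g hg x hx]
      have h5 : ∀ i ∈ insert n I, (A.image (del i)).card = A.card := by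
        intro i _
        refine Finset.card_image_of_injOn ?_
        intro f hf g hg _
        exact Finset.card_le_one.1 h1 f hf g hg
      rw [Finset.sum_congr rfl h5, Finset.sum_const, smul_eq_mul]
      omega
    · have hP1 : ∀ J ⊆ I, J.card = d + 1 + 1 →
          ((BB A n 1).image (mask J)).card < 2 ^ (d + 1 + 1) := by
        intro J hJ hJc
        have hnJ : n ∉ J := fun h => hn (hJ h)
        rw [BB_one, Finset.image_image]
        have : (mask J ∘ del n : (ι → K) → (ι → K)) = mask J := by
          funext f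
          exact mask_del hnJ f
        rw [this]
        exact hP J (hJ.trans (Finset.subset_insert _ _)) hJc
      have hP2 : ∀ j, 2 ≤ j → ∀ J ⊆ I, J.card = d + 1 →
          ((BB A n j).image (mask J)).card < 2 ^ (d + 1) := by
        intro j hj J hJ hJc
        have hnJ : n ∉ J := fun h => hn (hJ h)
        have h1 := two_mul_BB A hnJ hj
        have h2 := hP (insert n J) (Finset.insert_subset_insert _ hJ)
          (by rw [Finset.card_insert_of_notMem hnJ, hJc])
        rw [pow_succ] at h2
        omega
      have hB : ∀ j ∈ Finset.Icc 1 A.card, I.card * (BB A n j).card ≤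
          (d + (if j = 1 then 1 else 0)) * (BB A n j).card +
            ∑ i ∈ I, ((BB A n j).image (del i)).card := by
        intro j hj
        rw [Finset.mem_Icc] at hj
        by_cases hj1 : j = 1
        · subst hj1
          simpa using ih (d + 1) (BB A n 1) (hsupp 1) hP1
        · simpa [hj1] using ih d (BB A n j) (hsupp j) (hP2 j (by omega))
      have hsum := Finset.sum_le_sum hB
      rw [← Finset.mul_sum, ← sum_BB, Finset.sum_add_distrib, Finset.sum_comm (s := Icc 1 A.card)]
        at hsum
      have h3 : ∑ i ∈ I, ∑ j ∈ Finset.Icc 1 A.card, ((BB A n j).image (del i)).card ≤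
          ∑ i ∈ I, (A.image (del i)).card := by
        refine Finset.sum_le_sum fun i hi => sum_image_BB A ?_
        intro h
        exact hn (h ▸ hi)
      have h4 : ∑ j ∈ Finset.Icc 1 A.card, (d + (if j = 1 then 1 else 0)) * (BB A n j).card ≤
          d * A.card + (A.image (del n)).card := by
        have h5 : ∀ j ∈ Finset.Icc 1 A.card, (d + (if j = 1 then 1 else 0)) * (BB A n j).card =
            d * (BB A n j).card + (if j = 1 then (BB A n j).card else 0) := by
          intro j _
          split_ifs <;> ring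
        rw [Finset.sum_congr rfl h5, Finset.sum_add_distrib, ← Finset.mul_sum, ← sum_BB,
          Finset.sum_ite_eq' (Finset.Icc 1 A.card) 1 (fun j => (BB A n j).card)]
        split_ifs
        · rw [BB_one]
        · omega
      rw [Finset.card_insert_of_notMem hn, Finset.sum_insert hn, Nat.succ_mul, Nat.succ_mul]
      omega

end LemmaV

open LemmaV in
theorem specV : SpecV := by
  intro ι K _ _ _ _ d A h
  have := main (Finset.univ : Finset ι) d A (by simp) (fun J _ hJ => h J hJ)
  rwa [Finset.card_univ] at this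

end MPed7341
end

section
/-
MP_ed7341_co, module NUM: numerical instances of the parameters.
-/
set_option autoImplicit false

namespace MPed7341

namespace NumM

theorem two_mul_half (q : ℕ) : 2 * (q * (q - 1) / 2) = q * (q - 1) :=
  Nat.mul_div_cancel' (Nat.even_mul_pred_self q).two_dvd

/-- reduction to two inequalities without division. -/
theorem mk (q k d : ℕ) (hd : 1 ≤ d) (hk : 1 ≤ k)
    (h1 : k * (q - 1) * (q * (q - 1)) * (d + 1) + 2 < 2 * 2 ^ (d + 1))
    (h2 : 2 * d * k ^ 2 * (q * (q - 1)) ^ 2 < q ^ k) : Num q k d := by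
  refine ⟨hd, hk, ?_, ?_⟩
  · have h := two_mul_half q
    generalize q * (q - 1) / 2 = m at h ⊢
    rw [← h] at h1
    nlinarith
  · have h := two_mul_half q
    generalize q * (q - 1) / 2 = m at h ⊢
    rw [← h] at h2
    calc 8 * d * (k * m) ^ 2 = 2 * d * k ^ 2 * (2 * m) ^ 2 := by ring
      _ < q ^ k := h2

theorem grow (P : ℕ → ℕ) (a : ℕ) (h0 : P 0 < 2 ^ a) (h : ∀ x, P (x + 1) ≤ 2 * P x) (x : ℕ) :
    P x < 2 ^ (a + x) := by
  induction x with
  | zero => simpa using h0
  | succ x ih =>
    calc P (x + 1) ≤ 2 * P x := h x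
      _ < 2 * 2 ^ (a + x) := by omega
      _ = 2 ^ (a + (x + 1)) := by rw [← pow_succ', Nat.add_assoc]

theorem pol9 (x : ℕ) : 9 * (3 + x) * ((4 + x) * (3 + x)) * (12 + x) + 2 < 2 ^ (13 + x) := by
  rcases x with _ | _ | x
  · norm_num
  · norm_num
  · have h := grow (fun x => 9 * (5 + x) * ((6 + x) * (5 + x)) * (14 + x) + 2) 15
      (by norm_num) (by intro x; ring_nf; nlinarith [sq_nonneg x, Nat.zero_le (x ^ 3), Nat.zero_le (x ^ 4)]) x
    have e1 : 3 + (x + 1 + 1) = 5 + x := by omega
    have e2 : 4 + (x + 1 + 1) = 6 + x := by omega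
    have e3 : 12 + (x + 1 + 1) = 14 + x := by omega
    have e4 : 13 + (x + 1 + 1) = 15 + x := by omega
    rw [e1, e2, e3, e4]
    exact h

theorem num9 (x : ℕ) : Num (4 + x) 9 (11 + x) := by
  apply mk _ _ _ (by omega) (by omega)
  · have h := pol9 x
    have e : 4 + x - 1 = 3 + x := by omega
    have e2 : 11 + x + 1 = 12 + x := by omega
    rw [e, e2]
    calc 9 * (3 + x) * ((4 + x) * (3 + x)) * (12 + x) + 2 < 2 ^ (13 + x) := h
      _ = 2 * 2 ^ (12 + x) := by rw [← pow_succ']; congr 1; omega
  · have e : 4 + x - 1 = 3 + x := by omega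
    rw [e]
    have : 2 * (11 + x) * 9 ^ 2 * (3 + x) ^ 2 < (4 + x) ^ 7 := by
      ring_nf
      nlinarith [Nat.zero_le (x ^ 2), Nat.zero_le (x ^ 3), Nat.zero_le (x ^ 4), Nat.zero_le (x ^ 5),
        Nat.zero_le (x ^ 6), Nat.zero_le (x ^ 7)]
    calc 2 * (11 + x) * 9 ^ 2 * ((4 + x) * (3 + x)) ^ 2
        = (2 * (11 + x) * 9 ^ 2 * (3 + x) ^ 2) * (4 + x) ^ 2 := by ring
      _ < (4 + x) ^ 7 * (4 + x) ^ 2 := Nat.mul_lt_mul_of_pos_right this (by positivity)
      _ = (4 + x) ^ 9 := by ring

theorem num8 (x : ℕ) : Num (7 + x) 8 (13 + x) := by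
  apply mk _ _ _ (by omega) (by omega)
  · have h := grow (fun x => 8 * (6 + x) * ((7 + x) * (6 + x)) * (14 + x) + 2) 15
      (by norm_num) (by intro x; ring_nf; nlinarith [sq_nonneg x, Nat.zero_le (x ^ 3), Nat.zero_le (x ^ 4)]) x
    have e : 7 + x - 1 = 6 + x := by omega
    have e2 : 13 + x + 1 = 14 + x := by omega
    rw [e, e2]
    calc 8 * (6 + x) * ((7 + x) * (6 + x)) * (14 + x) + 2 < 2 ^ (15 + x) := h
      _ = 2 * 2 ^ (14 + x) := by rw [← pow_succ']; congr 1; omega
  · have e : 7 + x - 1 = 6 + x := by omega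
    rw [e]
    have : 2 * (13 + x) * 8 ^ 2 * (6 + x) ^ 2 < (7 + x) ^ 6 := by
      ring_nf
      nlinarith [Nat.zero_le (x ^ 2), Nat.zero_le (x ^ 3), Nat.zero_le (x ^ 4), Nat.zero_le (x ^ 5),
        Nat.zero_le (x ^ 6)]
    calc 2 * (13 + x) * 8 ^ 2 * ((7 + x) * (6 + x)) ^ 2
        = (2 * (13 + x) * 8 ^ 2 * (6 + x) ^ 2) * (7 + x) ^ 2 := by ring
      _ < (7 + x) ^ 6 * (7 + x) ^ 2 := Nat.mul_lt_mul_of_pos_right this (by positivity)
      _ = (7 + x) ^ 8 := by ring

theorem num7 (x : ℕ) : Num (11 + x) 7 (16 + x) := by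
  apply mk _ _ _ (by omega) (by omega)
  · have h := grow (fun x => 7 * (10 + x) * ((11 + x) * (10 + x)) * (17 + x) + 2) 18
      (by norm_num) (by intro x; ring_nf; nlinarith [sq_nonneg x, Nat.zero_le (x ^ 3), Nat.zero_le (x ^ 4)]) x
    have e : 11 + x - 1 = 10 + x := by omega
    have e2 : 16 + x + 1 = 17 + x := by omega
    rw [e, e2]
    calc 7 * (10 + x) * ((11 + x) * (10 + x)) * (17 + x) + 2 < 2 ^ (18 + x) := h
      _ = 2 * 2 ^ (17 + x) := by rw [← pow_succ']; congr 1; omega
  · have e : 11 + x - 1 = 10 + x := by omega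
    rw [e]
    have : 2 * (16 + x) * 7 ^ 2 * (10 + x) ^ 2 < (11 + x) ^ 5 := by
      ring_nf
      nlinarith [Nat.zero_le (x ^ 2), Nat.zero_le (x ^ 3), Nat.zero_le (x ^ 4), Nat.zero_le (x ^ 5)]
    calc 2 * (16 + x) * 7 ^ 2 * ((11 + x) * (10 + x)) ^ 2
        = (2 * (16 + x) * 7 ^ 2 * (10 + x) ^ 2) * (11 + x) ^ 2 := by ring
      _ < (11 + x) ^ 5 * (11 + x) ^ 2 := Nat.mul_lt_mul_of_pos_right this (by positivity)
      _ = (11 + x) ^ 7 := by ring

theorem num6 (x : ℕ) : Num (41 + x) 6 (24 + x) := by
  apply mk _ _ _ (by omega) (by omega)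
  · have h := grow (fun x => 6 * (40 + x) * ((41 + x) * (40 + x)) * (25 + x) + 2) 26
      (by norm_num) (by intro x; ring_nf; nlinarith [sq_nonneg x, Nat.zero_le (x ^ 3), Nat.zero_le (x ^ 4)]) x
    have e : 41 + x - 1 = 40 + x := by omega
    have e2 : 24 + x + 1 = 25 + x := by omega
    rw [e, e2]
    calc 6 * (40 + x) * ((41 + x) * (40 + x)) * (25 + x) + 2 < 2 ^ (26 + x) := h
      _ = 2 * 2 ^ (25 + x) := by rw [← pow_succ']; congr 1; omega
  · have e : 41 + x - 1 = 40 + x := by omega
    rw [e]
    have : 2 * (24 + x) * 6 ^ 2 * (40 + x) ^ 2 < (41 + x) ^ 4 := by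
      ring_nf
      nlinarith [Nat.zero_le (x ^ 2), Nat.zero_le (x ^ 3), Nat.zero_le (x ^ 4)]
    calc 2 * (24 + x) * 6 ^ 2 * ((41 + x) * (40 + x)) ^ 2
        = (2 * (24 + x) * 6 ^ 2 * (40 + x) ^ 2) * (41 + x) ^ 2 := by ring
      _ < (41 + x) ^ 4 * (41 + x) ^ 2 := Nat.mul_lt_mul_of_pos_right this (by positivity)
      _ = (41 + x) ^ 6 := by ring

theorem num5 (q : ℕ) (hq : 2048 ≤ q) : Num q 5 (q / 52) := by
  obtain ⟨x, hx⟩ : ∃ x, q / 52 = 39 + x := ⟨q / 52 - 39, by omega⟩
  have hlt : q < 52 * (40 + x) := by omega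
  have hle : 52 * (39 + x) ≤ q := by omega
  rw [hx]
  apply mk _ _ _ (by omega) (by omega)
  · have h := grow (fun x => 5 * 52 ^ 3 * (40 + x) ^ 4 + 2) 41
      (by norm_num) (by intro x; ring_nf; nlinarith [sq_nonneg x, Nat.zero_le (x ^ 3), Nat.zero_le (x ^ 4)]) x
    have e2 : 39 + x + 1 = 40 + x := by omega
    rw [e2]
    have h1 : q - 1 ≤ 52 * (40 + x) := by omega
    have h2 : q ≤ 52 * (40 + x) := by omega
    calc 5 * (q - 1) * (q * (q - 1)) * (40 + x) + 2
        ≤ 5 * (52 * (40 + x)) * ((52 * (40 + x)) * (52 * (40 + x))) * (40 + x) + 2 := by gcongr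
      _ = 5 * 52 ^ 3 * (40 + x) ^ 4 + 2 := by ring
      _ < 2 ^ (41 + x) := h
      _ = 2 * 2 ^ (40 + x) := by rw [← pow_succ']; congr 1; omega
  · have h0 : 0 < q := by omega
    have h1 : 50 * (39 + x) * (q - 1) ^ 2 < q ^ 3 := by
      calc 50 * (39 + x) * (q - 1) ^ 2 ≤ q * (q - 1) ^ 2 := by gcongr; omega
        _ < q * q ^ 2 := by
          apply Nat.mul_lt_mul_of_pos_left _ h0
          apply Nat.pow_lt_pow_left _ (by norm_num)
          omega
        _ = q ^ 3 := by ring
    calc 2 * (39 + x) * 5 ^ 2 * (q * (q - 1)) ^ 2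
        = (50 * (39 + x) * (q - 1) ^ 2) * q ^ 2 := by ring
      _ < q ^ 3 * q ^ 2 := Nat.mul_lt_mul_of_pos_right h1 (by positivity)
      _ = q ^ 5 := by ring

end NumM

theorem specNum : SpecNum := by
  refine ⟨?_, ?_, ?_, ?_, ?_, ?_, ?_⟩
  · intro q hq
    obtain ⟨x, rfl⟩ := Nat.exists_eq_add_of_le hq
    exact ⟨_, NumM.num9 x⟩
  · intro q hq
    obtain ⟨x, rfl⟩ := Nat.exists_eq_add_of_le hq
    exact ⟨_, NumM.num8 x⟩
  · intro q hq
    obtain ⟨x, rfl⟩ := Nat.exists_eq_add_of_le hq
    exact ⟨_, NumM.num7 x⟩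
  · intro q hq
    obtain ⟨x, rfl⟩ := Nat.exists_eq_add_of_le hq
    exact ⟨_, NumM.num6 x⟩
  · intro q hq
    exact ⟨_, NumM.num5 q hq⟩
  · exact ⟨6, by norm_num [Num]⟩
  · exact ⟨9, by norm_num [Num]⟩

end MPed7341
end

section
/-!
# MP_ed7341_co : module PACK
-/
set_option autoImplicit false
set_option linter.unusedSectionVars false

namespace MPed7341

open Finset

namespace PackM

variable {I T K : Type} [Fintype I] [Fintype T] [DecidableEq I] [DecidableEq T] [DecidableEq K]
    [Zero K] {s : ℕ}

/-- the pattern of a row on a sample -/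
def pat (g : I → T → K) (τ : Fin s → T) (r : I) : Fin s → K := fun i => g r (τ i)

/-- number of rows with a given pattern -/
def mu (g : I → T → K) (τ : Fin s → T) (f : Fin s → K) : ℕ :=
  (univ.filter (fun r => pat g τ r = f)).card

/-- frequent patterns -/
def AA (g : I → T → K) (τ : Fin s → T) (θ : ℕ) : Finset (Fin s → K) :=
  (univ.image (pat g τ)).filter (fun f => θ ≤ mu g τ f)

/-- the retained part -/
def ret (g : I → T → K) (i : Fin s) (τ : Fin s → T) : ℕ :=
  ∑ θ ∈ Finset.Icc 1 (Fintype.card I), ((AA g τ θ).image (mask {i}ᶜ)).card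

theorem sum_AA (g : I → T → K) (τ : Fin s → T) :
    ∑ θ ∈ Finset.Icc 1 (Fintype.card I), (AA g τ θ).card = Fintype.card I := by
  unfold AA
  simp only [Finset.card_filter]
  rw [Finset.sum_comm]
  have h1 : Fintype.card I = ∑ f ∈ univ.image (pat g τ), mu g τ f :=
    Finset.card_eq_sum_card_image (pat g τ) univ
  conv_rhs => rw [h1]
  refine Finset.sum_congr rfl fun f _ => ?_
  rw [← Finset.card_filter, LemmaV.card_Icc_filter_le]
  exact (Finset.card_filter_le _ _).trans (le_of_eq Finset.card_univ)

/-- patterns on a set of coordinates -/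
theorem card_patterns (g : I → T → K) (τ : Fin s → T) (J : Finset (Fin s)) :
    (univ.image (fun r => mask J (pat g τ r))).card ≤
      (univ.image (fun r => mask (J.image τ) (g r))).card := by
  have h : (univ.image (fun r => mask J (pat g τ r))) =
      (univ.image (fun r => mask (J.image τ) (g r))).image
        (fun u : T → K => fun i : Fin s => if i ∈ J then u (τ i) else 0) := by
    rw [Finset.image_image]
    refine Finset.image_congr fun r _ => ?_
    funext i
    simp only [Function.comp_apply, mask, pat]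
    by_cases hi : i ∈ J
    · rw [if_pos hi, if_pos hi, if_pos (Finset.mem_image_of_mem τ hi)]
    · rw [if_neg hi, if_neg hi]
  rw [h]
  exact Finset.card_image_le

theorem lemV (hV : SpecV) (g : I → T → K) {a d : ℕ}
    (hp : ∀ T' : Finset T, T'.card ≤ d + 1 ∨ T'.card ≤ s - 1 →
      (univ.image (fun i => mask T' (g i))).card ≤ a * T'.card + 1)
    (ha : a * (d + 1) + 1 < 2 ^ (d + 1)) (τ : Fin s → T) :
    s * Fintype.card I ≤ d * Fintype.card I + ∑ i : Fin s, ret g i τ := by
  have h1 : ∀ θ ∈ Finset.Icc 1 (Fintype.card I), s * (AA g τ θ).card ≤ d * (AA g τ θ).card +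
      ∑ i : Fin s, ((AA g τ θ).image (mask {i}ᶜ)).card := by
    intro θ _
    have := hV (Fin s) K d (AA g τ θ) (fun J hJ => by
      have h2 : ((AA g τ θ).image (mask J)) ⊆ univ.image (fun r => mask J (pat g τ r)) := by
        intro f hf
        obtain ⟨f', hf', rfl⟩ := Finset.mem_image.1 hf
        obtain ⟨r, _, rfl⟩ := Finset.mem_image.1 (Finset.mem_filter.1 hf').1
        exact Finset.mem_image_of_mem _ (Finset.mem_univ r)
      have h3 := (Finset.card_le_card h2).trans (card_patterns g τ J)
      have h4 : (J.image τ).card ≤ d + 1 := Finset.card_image_le.trans hJ.le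
      have h5 := hp (J.image τ) (Or.inl h4)
      have h6 : a * (J.image τ).card ≤ a * (d + 1) := Nat.mul_le_mul_left _ h4
      omega)
    rwa [Fintype.card_fin] at this
  have h2 := Finset.sum_le_sum h1
  rw [← Finset.mul_sum, sum_AA, Finset.sum_add_distrib, ← Finset.mul_sum, sum_AA,
    Finset.sum_comm] at h2
  exact h2

/-- the class estimate -/
theorem class_est (g : I → T → K) {G0 : ℕ}
    (hG : ∀ i j : I, i ≠ j → G0 ≤ (univ.filter (fun t => g i t ≠ g j t)).card)
    (C : Finset I) (hC : C.Nonempty) (M : T → ℕ)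
    (hM : ∀ t, ∃ S ⊆ C, S.card = M t ∧ ∀ r ∈ S, ∀ r' ∈ S, g r t = g r' t) :
    C.card * G0 + 2 * ∑ t, M t ≤ 2 * Fintype.card T * C.card + G0 := by
  have h1 : ∀ t, ((C ×ˢ C).filter (fun p => g p.1 t ≠ g p.2 t)).card + M t * M t ≤
      C.card * C.card := by
    intro t
    obtain ⟨S, hS, hSM, hSg⟩ := hM t
    have h2 : ((C ×ˢ C).filter (fun p => g p.1 t = g p.2 t)).card +
        ((C ×ˢ C).filter (fun p => ¬ g p.1 t = g p.2 t)).card = (C ×ˢ C).card :=
      Finset.card_filter_add_card_filter_not _
    rw [Finset.card_product] at h2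
    have h3 : (S ×ˢ S).card ≤ ((C ×ˢ C).filter (fun p => g p.1 t = g p.2 t)).card := by
      refine Finset.card_le_card ?_
      intro p hp
      rw [Finset.mem_product] at hp
      rw [Finset.mem_filter, Finset.mem_product]
      exact ⟨⟨hS hp.1, hS hp.2⟩, hSg _ hp.1 _ hp.2⟩
    rw [Finset.card_product, hSM] at h3
    have h4 : ((C ×ˢ C).filter (fun p => g p.1 t ≠ g p.2 t)).card =
      ((C ×ˢ C).filter (fun p => ¬ g p.1 t = g p.2 t)).card := rfl
    omega
  have h2 : (C.card * C.card - C.card) * G0 ≤
      ∑ t, ((C ×ˢ C).filter (fun p => g p.1 t ≠ g p.2 t)).card := by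
    have h3 : ∑ t, ((C ×ˢ C).filter (fun p => g p.1 t ≠ g p.2 t)).card =
        ∑ p ∈ C ×ˢ C, (univ.filter (fun t => g p.1 t ≠ g p.2 t)).card := by
      simp only [Finset.card_filter]
      rw [Finset.sum_comm]
    rw [h3, ← Finset.offDiag_card, ← smul_eq_mul, ← Finset.sum_const]
    have hsub : C.offDiag ⊆ C ×ˢ C := by
      intro p hp
      rw [Finset.mem_offDiag] at hp
      exact Finset.mem_product.2 ⟨hp.1, hp.2.1⟩
    refine le_trans ?_ (Finset.sum_le_sum_of_subset hsub)
    refine Finset.sum_le_sum fun p hp => ?_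
    rw [Finset.mem_offDiag] at hp
    exact hG _ _ hp.2.2
  have hm : 0 < C.card := hC.card_pos
  have h3 : (C.card * C.card - C.card) * G0 + ∑ t, M t * M t ≤
      Fintype.card T * (C.card * C.card) := by
    have h4 := Finset.sum_le_sum (s := (univ : Finset T)) (fun t _ => h1 t)
    rw [Finset.sum_add_distrib, Finset.sum_const, Finset.card_univ, smul_eq_mul] at h4
    omega
  have h4 : 2 * C.card * ∑ t, M t ≤ Fintype.card T * (C.card * C.card) + ∑ t, M t * M t := by
    have h5 : ∀ t ∈ (univ : Finset T), 2 * C.card * M t ≤ C.card * C.card + M t * M t := by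
      intro t _
      zify
      nlinarith [sq_nonneg ((C.card : ℤ) - M t)]
    have h6 := Finset.sum_le_sum h5
    rw [← Finset.mul_sum, Finset.sum_add_distrib, Finset.sum_const, Finset.card_univ,
      smul_eq_mul] at h6
    exact h6
  refine Nat.le_of_mul_le_mul_left (c := C.card) ?_ hm
  have h7 : (C.card * C.card - C.card) * G0 + C.card * G0 = C.card * C.card * G0 := by
    rw [← Nat.add_mul]
    congr 1
    have : C.card ≤ C.card * C.card := Nat.le_mul_of_pos_left _ hm
    omega
  calc C.card * (C.card * G0 + 2 * ∑ t, M t)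
      = (C.card * C.card * G0) + 2 * C.card * ∑ t, M t := by ring
    _ ≤ ((C.card * C.card - C.card) * G0 + C.card * G0) +
        (Fintype.card T * (C.card * C.card) + ∑ t, M t * M t) := by
        rw [h7]; omega
    _ ≤ Fintype.card T * (C.card * C.card) + Fintype.card T * (C.card * C.card) +
        C.card * G0 := by omega
    _ = C.card * (2 * Fintype.card T * C.card + G0) := by ring

theorem del_update (g : I → T → K) (τ : Fin s → T) (i : Fin s) (t : T) (r : I) :
    mask {i}ᶜ (pat g (Function.update τ i t) r) = mask {i}ᶜ (pat g τ r) := by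
  funext x
  unfold mask pat
  by_cases hx : x = i
  · simp [hx]
  · simp [hx]

/-- the key estimate for one sample and one coordinate -/
theorem key (g : I → T → K) {G0 a : ℕ} (hs : 1 ≤ s)
    (hG : ∀ i j : I, i ≠ j → G0 ≤ (univ.filter (fun t => g i t ≠ g j t)).card)
    (hp : ∀ T' : Finset T, T'.card ≤ s - 1 →
      (univ.image (fun i => mask T' (g i))).card ≤ a * T'.card + 1)
    (τ : Fin s → T) (i : Fin s) :
    Fintype.card I * G0 + 2 * ∑ t, ret g i (Function.update τ i t) ≤
      2 * Fintype.card T * Fintype.card I + (a * (s - 1) + 1) * G0 := by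
  set H := univ.image (fun r => mask {i}ᶜ (pat g τ r)) with hH
  have hHc : H.card ≤ a * (s - 1) + 1 := by
    have h1 : H.card ≤ _ := card_patterns g τ ({i}ᶜ : Finset (Fin s))
    have h2 : (({i}ᶜ : Finset (Fin s)).image τ).card ≤ s - 1 := by
      refine Finset.card_image_le.trans ?_
      rw [Finset.card_compl, Finset.card_singleton, Fintype.card_fin]
    have h3 := hp _ h2
    have h4 : a * (({i}ᶜ : Finset (Fin s)).image τ).card ≤ a * (s - 1) :=
      Nat.mul_le_mul_left _ h2
    omega
  let C : (Fin s → K) → Finset I := fun h => univ.filter (fun r => mask {i}ᶜ (pat g τ r) = h)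
  let M : T → (Fin s → K) → ℕ := fun t h =>
    (C h).sup (fun r => mu g (Function.update τ i t) (pat g (Function.update τ i t) r))
  have hCcard : ∑ h ∈ H, (C h).card = Fintype.card I :=
    (Finset.card_eq_sum_card_image (fun r => mask {i}ᶜ (pat g τ r)) univ).symm
  have hret : ∀ t, ret g i (Function.update τ i t) ≤ ∑ h ∈ H, M t h := by
    intro t
    unfold ret
    have h1 : ∀ θ ∈ Finset.Icc 1 (Fintype.card I),
        ((AA g (Function.update τ i t) θ).image (mask {i}ᶜ)).card ≤
          (H.filter (fun h => θ ≤ M t h)).card := by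
      intro θ _
      refine Finset.card_le_card ?_
      intro h hh
      obtain ⟨f, hf, rfl⟩ := Finset.mem_image.1 hh
      rw [AA, Finset.mem_filter] at hf
      obtain ⟨r, _, rfl⟩ := Finset.mem_image.1 hf.1
      rw [Finset.mem_filter, del_update]
      refine ⟨Finset.mem_image_of_mem _ (Finset.mem_univ r), hf.2.trans ?_⟩
      exact Finset.le_sup (f := fun r => mu g (Function.update τ i t)
        (pat g (Function.update τ i t) r)) (Finset.mem_filter.2 ⟨Finset.mem_univ r, rfl⟩)
    refine (Finset.sum_le_sum h1).trans ?_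
    simp only [Finset.card_filter]
    rw [Finset.sum_comm]
    refine Finset.sum_le_sum fun h _ => ?_
    rw [← Finset.card_filter]
    have h2 : (Finset.Icc 1 (Fintype.card I)).filter (fun θ => θ ≤ M t h) ⊆
        Finset.Icc 1 (M t h) := by
      intro θ hθ
      rw [Finset.mem_filter, Finset.mem_Icc] at hθ
      rw [Finset.mem_Icc]
      exact ⟨hθ.1.1, hθ.2⟩
    refine (Finset.card_le_card h2).trans ?_
    simp
  have hclass : ∀ h ∈ H, (C h).card * G0 + 2 * ∑ t, M t h ≤
      2 * Fintype.card T * (C h).card + G0 := by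
    intro h hh
    have hne : (C h).Nonempty := by
      obtain ⟨r, _, hr⟩ := Finset.mem_image.1 hh
      exact ⟨r, Finset.mem_filter.2 ⟨Finset.mem_univ r, hr⟩⟩
    refine class_est g hG (C h) hne (fun t => M t h) fun t => ?_
    obtain ⟨r0, hr0, hr0'⟩ := Finset.exists_mem_eq_sup (C h) hne
      (fun r => mu g (Function.update τ i t) (pat g (Function.update τ i t) r))
    refine ⟨univ.filter (fun r => pat g (Function.update τ i t) r =
      pat g (Function.update τ i t) r0), ?_, ?_, ?_⟩
    · intro r hr
      rw [Finset.mem_filter] at hr hr0 ⊢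
      refine ⟨Finset.mem_univ r, ?_⟩
      rw [← del_update g τ i t r, hr.2, del_update]
      exact hr0.2
    · exact hr0'.symm
    · intro r hr r' hr'
      rw [Finset.mem_filter] at hr hr'
      have h1 := congrFun (hr.2.trans hr'.2.symm) i
      simpa [pat] using h1
  have h1 := Finset.sum_le_sum hclass
  rw [Finset.sum_add_distrib, ← Finset.sum_mul, hCcard, ← Finset.mul_sum, Finset.sum_comm,
    Finset.sum_add_distrib, ← Finset.mul_sum, hCcard, Finset.sum_const, smul_eq_mul] at h1
  have h2 := Finset.sum_le_sum (s := (univ : Finset T)) (fun t _ => hret t)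
  have h3 : H.card * G0 ≤ (a * (s - 1) + 1) * G0 := Nat.mul_le_mul_right _ hHc
  omega

/-- resampling one coordinate -/
theorem resample (F : (Fin s → T) → ℕ) (i : Fin s) :
    ∑ τ : Fin s → T, ∑ t : T, F (Function.update τ i t) =
      Fintype.card T * ∑ τ : Fin s → T, F τ := by
  let e : (Fin s → T) × T ≃ (Fin s → T) × T :=
    { toFun := fun p => (Function.update p.1 i p.2, p.1 i)
      invFun := fun p => (Function.update p.1 i p.2, p.1 i)
      left_inv := fun p => by simp
      right_inv := fun p => by simp }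
  have h1 : ∑ τ : Fin s → T, ∑ t : T, F (Function.update τ i t) =
      ∑ p : (Fin s → T) × T, F (e p).1 := by
    rw [Fintype.sum_prod_type]
    rfl
  rw [h1, e.sum_comp (fun p => F p.1), Fintype.sum_prod_type, Finset.mul_sum]
  refine Finset.sum_congr rfl fun τ _ => ?_
  change ∑ _y : T, F τ = _
  rw [Finset.sum_const, Finset.card_univ, smul_eq_mul]

end PackM

open PackM in
theorem specPack (hV : SpecV) : SpecPack := by
  intro I T K _ _ _ _ _ _ g G0 a d s hs hT hG hp ha
  obtain ⟨t0⟩ := hT
  set R := Fintype.card I with hR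
  set n := Fintype.card T with hn
  have hnpos : 0 < Fintype.card (Fin s → T) := by
    have : Nonempty T := ⟨t0⟩
    exact Fintype.card_pos
  set N := Fintype.card (Fin s → T) with hN
  set c := a * (s - 1) + 1 with hc
  obtain ⟨S', hS'⟩ : ∃ S', S' = ∑ i : Fin s, ∑ τ : Fin s → T, ret g i τ := ⟨_, rfl⟩
  -- sum of the first estimate
  have h1 : N * (s * R) ≤ N * (d * R) + S' := by
    have := Finset.sum_le_sum (s := (univ : Finset (Fin s → T)))
      (fun τ _ => lemV hV g hp ha τ)
    rw [Finset.sum_add_distrib, Finset.sum_const, Finset.sum_const, Finset.card_univ,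
      smul_eq_mul, smul_eq_mul, Finset.sum_comm, ← hS'] at this
    exact this
  have h2 : ∀ i : Fin s, N * (R * G0) + 2 * (n * ∑ τ : Fin s → T, ret g i τ) ≤
      N * (2 * n * R + c * G0) := by
    intro i
    have h0 := Finset.sum_le_sum (s := (univ : Finset (Fin s → T)))
      (fun τ _ => key g hs hG (fun T' h => hp T' (Or.inr h)) τ i)
    have e1 : ∑ τ : Fin s → T, (Fintype.card I * G0 +
        2 * ∑ t, ret g i (Function.update τ i t)) =
        N * (R * G0) + 2 * (n * ∑ τ : Fin s → T, ret g i τ) := by
      rw [Finset.sum_add_distrib, Finset.sum_const, Finset.card_univ, smul_eq_mul,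
        ← Finset.mul_sum, resample (ret g i) i]
    have e2 : ∑ _τ : Fin s → T, (2 * Fintype.card T * Fintype.card I +
        (a * (s - 1) + 1) * G0) = N * (2 * n * R + c * G0) := by
      rw [Finset.sum_const, Finset.card_univ, smul_eq_mul]
    rw [e1, e2] at h0
    exact h0
  have h3 : s * (N * (R * G0)) + 2 * (n * S') ≤ s * (N * (2 * n * R + c * G0)) := by
    have h0 := Finset.sum_le_sum (s := (univ : Finset (Fin s))) (fun i _ => h2 i)
    have e1 : ∑ i : Fin s, (N * (R * G0) + 2 * (n * ∑ τ : Fin s → T, ret g i τ)) =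
        s * (N * (R * G0)) + 2 * (n * S') := by
      rw [Finset.sum_add_distrib, Finset.sum_const, Finset.card_univ, smul_eq_mul,
        Fintype.card_fin, ← Finset.mul_sum, ← Finset.mul_sum, hS']
    have e2 : ∑ _i : Fin s, (N * (2 * n * R + c * G0)) = s * (N * (2 * n * R + c * G0)) := by
      rw [Finset.sum_const, Finset.card_univ, smul_eq_mul, Fintype.card_fin]
    rw [e1, e2] at h0
    exact h0
  refine Nat.le_of_mul_le_mul_left (c := N) ?_ hnpos
  have h4 := Nat.mul_le_mul_left (2 * n) h1
  nlinarith [h3, h4]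

end MPed7341
end

section
/-
MP_ed7341_co: assembly.
-/
set_option autoImplicit false

namespace MPed7341

theorem cocir : SpecCocir := specCocir (specPack specV) specDual

/-- density theorem. -/
theorem dens : SpecDens := specDens specGrow cocir

/-- bound for the critical exponent. -/
theorem colour : SpecColour := specColour dens cocir

end MPed7341
end
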