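/-
MP_ed7341_co: statements of the modules. Paper proof: /team-store/MP_ed7341_co_PROOF.md
-/
import Pool.Agent.Lib.MP_ed7341_co.Defs

set_option autoImplicit false

namespace MPed7341

open Submodule Finset

/-- MAP: minors of contractions are minors. -/
def SpecMap : Prop :=
  ∀ (F : Type) [Field F] (V V' : Type) [AddCommGroup V] [Module F V] [AddCommGroup V']
    [Module F V'] [DecidableEq V'] (π : V →ₗ[F] V') (C0 E : Finset V), C0 ⊆ E →
    Function.Surjective π → LinearMap.ker π = span F (C0 : Set V) →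
    HasK4 F (E.image π) → HasK4 F E

open Classical in
/-- CROSS: crossing lemma. -/
def SpecCross : Prop :=
  ∀ (F : Type) [Field F] (V : Type) [AddCommGroup V] [Module F V] (E C : Finset V) (x : V),
    Simple F E → ¬ HasK4 F E → C ⊆ E → x ∈ E → x ∉ span F (C : Set V) →
    (E.filter (fun e => e ∉ span F (C : Set V) ⊔ span F {x})).card ≤
      ncl (span F {x}) (E.filter (fun e => e ∉ span F (C : Set V) ⊔ span F {x})) +
      (ncl (span F (C : Set V))
        (E.filter (fun e => e ∉ span F (C : Set V) ⊔ span F {x}))).choose 2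

open Classical in
/-- GROW: exponential growth of cocircuits. -/
def SpecGrow : Prop :=
  ∀ (F : Type) [Field F] [Fintype F] (V : Type) [AddCommGroup V] [Module F V]
    (A C : Finset V) (ξ : ℕ), Simple F A → ¬ HasK4 F A → C ⊆ A → rk F A = rk F C + 1 →
    (∀ z ∈ A, z ∉ span F (C : Set V) → ncl (span F {z}) (A.erase z) + ξ ≤ (A.erase z).card) →
    Fintype.card F ^ ξ ≤
      ((A.filter (fun a => a ∉ span F (C : Set V))).card) ^
        (Fintype.card F * (Fintype.card F - 1) / 2)

/-- LEMMAV: edges of the one-inclusion graph, multivalued version. -/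
def SpecV : Prop :=
  ∀ (ι K : Type) [Fintype ι] [DecidableEq ι] [DecidableEq K] [Zero K] (d : ℕ)
    (A : Finset (ι → K)),
    (∀ J : Finset ι, J.card = d + 1 → (A.image (mask J)).card < 2 ^ (d + 1)) →
    Fintype.card ι * A.card ≤ d * A.card + ∑ i : ι, (A.image (mask {i}ᶜ)).card

/-- PACK: abstract packing lemma. -/
def SpecPack : Prop :=
  ∀ (I T K : Type) [Fintype I] [Fintype T] [DecidableEq I] [DecidableEq T] [DecidableEq K]
    [Zero K] (g : I → T → K) (G0 a d s : ℕ), 1 ≤ s → Nonempty T →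
    (∀ i j : I, i ≠ j → G0 ≤ (univ.filter (fun t => g i t ≠ g j t)).card) →
    (∀ T' : Finset T, T'.card ≤ d + 1 ∨ T'.card ≤ s - 1 →
      (univ.image (fun i => mask T' (g i))).card ≤ a * T'.card + 1) →
    a * (d + 1) + 1 < 2 ^ (d + 1) →
    s * Fintype.card I * G0 ≤
      2 * d * Fintype.card I * Fintype.card T + s * (a * (s - 1) + 1) * G0

open Classical in
/-- DUAL: the matroid class is closed under duality (contraction of the dual to `T`). -/
def SpecDual : Prop :=
  ∀ (F : Type) [Field F] (V : Type) [AddCommGroup V] [Module F V] (B T : Finset V)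
    (co : V → V → F), Disjoint B T → LinearIndepOn F id (B : Set V) →
    (∀ t ∈ T, t = ∑ b ∈ B, co b t • b) →
    HasK4 F ((B ∪ T).image (fun a => fun t : {t // t ∈ T} =>
      if a ∈ B then co a t else if a = (t : V) then (1 : F) else 0)) →
    HasK4 F (B ∪ T)

open Classical in
/-- COCIR: a small cocircuit. -/
def SpecCocir : Prop :=
  ∀ (F : Type) [Field F] [Fintype F] (V : Type) [AddCommGroup V] [Module F V]
    (A : Finset V) (ρ d : ℕ), Simple F A → ¬ HasK4 F A → A.Nonempty → 1 ≤ d → 1 ≤ ρ →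
    (Fintype.card F - 1) * ρ * (d + 1) + 1 < 2 ^ (d + 1) → A.card ≤ ρ * rk F A + 1 →
    (∀ (V' : Type) [AddCommGroup V'] [Module F V'] (E' : Finset V'), ¬ HasK4 F E' →
      rk F E' < rk F A → npts F E' ≤ ρ * rk F E') →
    ∃ f : Module.Dual F V, (∃ a ∈ A, f a ≠ 0) ∧
      (A.filter (fun a => f a ≠ 0)).card ≤ 8 * d * ρ ^ 2

/-- DENS: density theorem. -/
def SpecDens : Prop :=
  ∀ (F : Type) [Field F] [Fintype F] (k d : ℕ), Num (Fintype.card F) k d →
  ∀ (V : Type) [AddCommGroup V] [Module F V] (E : Finset V), ¬ HasK4 F E →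
    npts F E ≤ k * (Fintype.card F * (Fintype.card F - 1) / 2) * rk F E

/-- COLOUR: bound for the critical exponent. -/
def SpecColour : Prop :=
  ∀ (F : Type) [Field F] [Fintype F] (k d : ℕ), Num (Fintype.card F) k d →
  ∀ (V : Type) [AddCommGroup V] [Module F V] (E : Finset V), ¬ HasK4 F E → (0 : V) ∉ E →
    ∃ f : Fin k → Module.Dual F V, ∀ x ∈ E, ∃ i, f i x ≠ 0

/-- NUM: numerical instances. -/
def SpecNum : Prop :=
  (∀ q : ℕ, 4 ≤ q → ∃ d, Num q 9 d) ∧ (∀ q : ℕ, 7 ≤ q → ∃ d, Num q 8 d) ∧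
  (∀ q : ℕ, 11 ≤ q → ∃ d, Num q 7 d) ∧ (∀ q : ℕ, 41 ≤ q → ∃ d, Num q 6 d) ∧
  (∀ q : ℕ, 2048 ≤ q → ∃ d, Num q 5 d) ∧ (∃ d, Num 2 13 d) ∧ (∃ d, Num 3 11 d)

/-- FROZ: translation to the form of the frozen statement. -/
def SpecFroz : Prop :=
  ∀ (F : Type) [Field F] (r : ℕ) (S : Finset (Fin r → F)),
    (¬ ∃ (C : Finset (Fin r → F)) (g : {p : Fin 4 × Fin 4 // p.1 < p.2} → (Fin r → F)),
      C ⊆ S ∧ (∀ e, g e ∈ S) ∧
      ∀ T : Set {p : Fin 4 × Fin 4 // p.1 < p.2},
        (LinearIndependent F (T.restrict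
            (fun e => (Submodule.span F (C : Set (Fin r → F))).mkQ (g e))) ↔
         LinearIndependent F (T.restrict
            (fun e => ((Pi.single e.1.1 (1 : F) : Fin 4 → F) -
              (Pi.single e.1.2 (1 : F) : Fin 4 → F)))))) →
    ¬ HasK4 F S

end MPed7341
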